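import Pool.Agent.T9h51.PS.Fin

/-!
# Popescu's conjecture up to the factor `N`
-/

set_option autoImplicit false
set_option linter.unusedSectionVars false

open NumberField IsDedekindDomain Filter Topology

noncomputable section

namespace Pool.Agent.T9h51.PN

open Pool.Agent.K3h30.RS Pool.Agent.T9h51.PS

variable {F H G : Type} [Field F] [NumberField F] [Field H] [NumberField H] [Algebra F H]
  [CommGroup G] [Finite G] [MulSemiringAction G H]

/-- `N w_H u` belongs to Popescu's lattice: for all `φ_1, ..., φ_(r-1)` the element `(φ_1 ∧ ... ∧ φ_(r-1)) (N w_H u)` is the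
image of some `ε` in `E_S(H)` with `H(ε ^ (1 / w_H)) / F` abelian. -/
def InLatticeN (N : ℕ) {S : Finset (HeightOneSpectrum (𝓞 F))} {m : ℕ} (u : Wedge G (m + 1) (US H S)) : Prop :=
  ∀ φ : Fin m → GHom G (US H S), ∃ ε : US H S, IsAb F (ε : Hˣ) ∧ ∀ ψ : GHom G (US H S),
    ((N * Units.torsionOrder H : ℕ) : MonoidAlgebra ℚ G) * u.value (Fin.snoc φ ψ) = toQ (ψ.f (Additive.ofMul ε))

/-- Popescu's conjecture for `N η'` in place of `η'`. -/
def PopescuN (N : ℕ) (Λ : LData F H G) (S : Finset (HeightOneSpectrum (𝓞 F))) {m : ℕ} (w : Fin (m + 1) → Place H) :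
    Prop :=
  ∃ u : Wedge G (m + 1) (US H S), IsEta Λ S w u ∧ InLatticeN N u

/-- Stark's conjecture over `ℚ` for `H / F`, `S` and the places `w_1, ..., w_r`: the element `η'` is rational. -/
def StarkQ (Λ : LData F H G) (S : Finset (HeightOneSpectrum (𝓞 F))) {r : ℕ} (w : Fin r → Place H) : Prop :=
  ∃ u : Wedge G r (US H S), IsEta Λ S w u

end Pool.Agent.T9h51.PN
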