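import Pool.Agent.T9h51.PN.Stark

/-!
# The `p`-part of Popescu's conjecture when `p` does not divide the class number
-/

set_option autoImplicit false
set_option linter.unusedSectionVars false

open NumberField IsDedekindDomain Filter Topology

noncomputable section

namespace Pool.Agent.T9h51.PN

open Pool.Agent.K3h30.RS Pool.Agent.T9h51.PS

variable {F H G : Type} [Field F] [NumberField F] [Field H] [NumberField H] [Algebra F H]
  [CommGroup G] [Finite G] [MulSemiringAction G H] [IsGaloisGroup G F H] {N : ℕ}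

section eta

variable [DecidableEq (HeightOneSpectrum (𝓞 F))] {v : HeightOneSpectrum (𝓞 F)} {S : Finset (HeightOneSpectrum (𝓞 F))}
  {P : HeightOneSpectrum (𝓞 H)} {r : ℕ} {w : Fin r → Place H}

/-- the element `η'` for `S ∪ {v}`, if a power `P ^ h` is principal outside `S` -/
theorem eta_upn (Λ : LData F H G) (hS : Unram H S) (hv : v ∉ S) (hP : Above {v} P)
    (hs : ∀ γ : G, Fixes (Sum.inr P : Place H) γ → γ = 1) (h : ℕ) (hh : 0 < h) (x : Hˣ)
    (hx1 : od P (Additive.ofMul x) = h)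
    (hx2 : ∀ w' : HeightOneSpectrum (𝓞 H), w' ≠ P → ¬ Above (S : Set (HeightOneSpectrum (𝓞 F))) w' →
      od w' (Additive.ofMul x) = 0)
    (hxU : x ∈ US H (insert v S)) (hle : US H S ≤ US H (insert v S)) (u : Wedge G r (US H S)) (hE : IsEta Λ S w u) :
    IsEta Λ (insert v S) (Fin.cons (Sum.inr P) w : Fin (r + 1) → Place H)
      (scale (algebraMap ℚ (MonoidAlgebra ℚ G) (h : ℚ)⁻¹) (wedgeWith hle ⟨x, hxU⟩ u)) := by
  classical
  have hσ := sigma_one Λ hS hv hP hs
  have hN : Ideal.absNorm P.asIdeal = Ideal.absNorm v.asIdeal := by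
    have h1 := Λ.frob v (hS v hv)
    rw [hσ] at h1
    exact absNorm_of_frob_one h1 hP
  have hπ : (ordG (G := G) (insert v S) P).f (Additive.ofMul ⟨x, hxU⟩) = MonoidAlgebra.single 1 (h : ℤ) :=
    ordG_gen hv hP hs ⟨x, hxU⟩ h hx1 hx2
  refine ⟨fun χ hχ k => ?_, fun χ hχ => ?_⟩
  · rw [active_congr (oth_cons hv hP) χ] at hχ
    change charValue χ (toR (_ * u.c k)) = 0
    rw [mul_comm]
    exact charValue_zero_of_mul χ _ _ (hE.inE χ hχ k)
  · rw [active_congr (oth_cons hv hP) χ] at hχ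
    have h2 := lim_up Λ hS hv hσ χ r (hE.stark χ hχ)
    have h3 : (wedgeWith hle ⟨x, hxU⟩ u).regulator (Fin.cons (Sum.inr P) w : Fin (r + 1) → Place H) =
        algebraMap ℝ (MonoidAlgebra ℝ G) (-Real.log (Ideal.absNorm P.asIdeal : ℝ) * h) * u.regulator w := by
      rw [regulator_eq_ev, ev_wedgeWith, Fin.sum_univ_succ]
      have h4 : ∑ i : Fin r, (-1) ^ ((i.succ : Fin (r + 1)) : ℕ) *
          regHom G ((Fin.cons (Sum.inr P) w : Fin (r + 1) → Place H) i.succ) (US H (insert v S))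
            (Additive.ofMul ⟨x, hxU⟩) * (ev (toR (G := G)) u fun b =>
          (regHom G ((Fin.cons (Sum.inr P) w : Fin (r + 1) → Place H) (i.succ.succAbove b)) (US H (insert v S))).comp
            (MonoidHom.toAdditive (Subgroup.inclusion hle))) = 0 := by
        refine Finset.sum_eq_zero fun i _ => ?_
        obtain ⟨m, rfl⟩ : ∃ m, r = m + 1 := ⟨r - 1, by have := i.2; omega⟩
        rw [ev_zero_row _ _ _ (0 : Fin (m + 1)), mul_zero]
        intro y
        have h5 : (i.succ.succAbove (0 : Fin (m + 1)) : Fin (m + 1 + 1)) = 0 := Fin.succ_succAbove_zero i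
        rw [h5]
        change reg G (Sum.inr P) ((Additive.toMul y : US H S) : Hˣ) = 0
        have h6 := reg_ordG (G := G) (insert v S) P (Subgroup.inclusion hle (Additive.toMul y))
        rw [(ordG_zero_iff hv hP _).2 (Additive.toMul y : US H S).2, map_zero, smul_zero] at h6
        exact h6
      refine (congrArg₂ (· + ·) ?_ h4).trans (add_zero _)
      have h5 : regHom G ((Fin.cons (Sum.inr P) w : Fin (r + 1) → Place H) 0) (US H (insert v S))
          (Additive.ofMul ⟨x, hxU⟩) =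
          algebraMap ℝ (MonoidAlgebra ℝ G) (-Real.log (Ideal.absNorm P.asIdeal : ℝ) * h) := by
        have h6 := reg_ordG (G := G) (insert v S) P ⟨x, hxU⟩
        rw [hπ] at h6
        have h7 : ((toR (G := G)).comp toQ) (MonoidAlgebra.single 1 (h : ℤ)) =
            algebraMap ℝ (MonoidAlgebra ℝ G) (h : ℝ) := by
          have : (MonoidAlgebra.single 1 (h : ℤ) : MonoidAlgebra ℤ G) = ((h : ℤ) : MonoidAlgebra ℤ G) := by
            rw [MonoidAlgebra.intCast_def]
            simp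
          rw [this, map_intCast]
          simp
        rw [h7, Algebra.smul_def, ← map_mul] at h6
        exact h6
      rw [h5]
      have h6 : (-1 : MonoidAlgebra ℝ G) ^ ((0 : Fin (r + 1)) : ℕ) = 1 := pow_zero _
      rw [h6, one_mul]
      congr 1
    have h9 : (scale (algebraMap ℚ (MonoidAlgebra ℚ G) (h : ℚ)⁻¹) (wedgeWith hle ⟨x, hxU⟩ u)).regulator
        (Fin.cons (Sum.inr P) w : Fin (r + 1) → Place H) =
        algebraMap ℝ (MonoidAlgebra ℝ G) (-Real.log (Ideal.absNorm P.asIdeal : ℝ)) * u.regulator w := by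
      rw [regulator_eq_ev, ev_scale, ← regulator_eq_ev, h3]
      have h10 : (toR (G := G)) (algebraMap ℚ (MonoidAlgebra ℚ G) (h : ℚ)⁻¹) =
          algebraMap ℝ (MonoidAlgebra ℝ G) (h : ℝ)⁻¹ := by
        change (toR (G := G)) (MonoidAlgebra.single 1 ((h : ℚ)⁻¹)) = MonoidAlgebra.single 1 ((h : ℝ)⁻¹)
        rw [Pool.Agent.K3h62.RS.toR_single]
        push_cast
        rfl
      rw [h10, ← mul_assoc, ← map_mul]
      congr 2
      have hh' : (h : ℝ) ≠ 0 := by exact_mod_cast hh.ne'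
      field_simp
    rw [h9, charValue_algebraMap, hN]
    have h8 : (Real.log (Ideal.absNorm v.asIdeal) : ℂ) * ((-1) ^ r * charValue χ⁻¹ (u.regulator w)) =
        (-1) ^ (r + 1) * (((-Real.log (Ideal.absNorm v.asIdeal : ℝ) : ℝ) : ℂ) * charValue χ⁻¹ (u.regulator w)) := by
      push_cast
      ring
    rw [← h8]
    exact h2

end eta

section lat

variable [DecidableEq (HeightOneSpectrum (𝓞 F))] {v : HeightOneSpectrum (𝓞 F)} {S : Finset (HeightOneSpectrum (𝓞 F))}
  {m : ℕ}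

/-- Popescu's lattice and the multiplication by an `S ∪ {v}`-unit -/
theorem lattice_wedge (x : Hˣ) (hxU : x ∈ US H (insert v S)) (hle : US H S ≤ US H (insert v S))
    (u : Wedge G (m + 1) (US H S)) (hL : InLatticeN N u) (φ' : Fin (m + 1) → GHom G (US H (insert v S))) :
    ∃ ε : US H (insert v S), IsAb F (ε : Hˣ) ∧ ∀ ψ' : GHom G (US H (insert v S)),
      ((N * Units.torsionOrder H : ℕ) : MonoidAlgebra ℚ G) * (wedgeWith hle ⟨x, hxU⟩ u).value (Fin.snoc φ' ψ') =
        toQ (ψ'.f (Additive.ofMul ε)) := by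
  classical
  have hU' := US_act (G := G) (H := H) (insert v S)
  have key : ∀ a : Fin (m + 1), ∃ ε : US H S, IsAb F (ε : Hˣ) ∧ ∀ ψ : GHom G (US H S),
      ((N * Units.torsionOrder H : ℕ) : MonoidAlgebra ℚ G) *
        u.value (Fin.snoc (fun b : Fin m => res hle (φ' (a.succAbove b))) ψ) = toQ (ψ.f (Additive.ofMul ε)) :=
    fun a => hL _
  choose ε hab hε using key
  obtain ⟨n, hn⟩ := exists_isExp H G
  let z : Fin (m + 1) → MonoidAlgebra ℤ G := fun a => (-1) ^ (a : ℕ) * (φ' a).f (Additive.ofMul ⟨x, hxU⟩)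
  let y : MonoidAlgebra ℤ G := (-1) ^ (m + 1) *
    (φ' (Fin.last m)).f (Additive.ofMul (Subgroup.inclusion hle (ε (Fin.last m))))
  let e1 : Fin (m + 1) → US H (insert v S) := fun a =>
    ⟨gp (z a) ((Subgroup.inclusion hle (ε a) : US H (insert v S)) : Hˣ), gp_mem hU' _ (Subgroup.inclusion hle (ε a)).2⟩
  let e2 : US H (insert v S) := ⟨gp y x, gp_mem hU' _ hxU⟩
  refine ⟨(∏ a, e1 a) * e2, ?_, fun ψ' => ?_⟩
  · rw [ab_iff hn, Subgroup.coe_mul, Subgroup.val_finsetProd]
    refine Kum.mul (Kum.prod _ _ fun a _ => ?_) ?_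
    · exact ((ab_iff hn _).1 (hab a)).gpow (z a)
    · have h1 : Kum n (gp ((φ' (Fin.last m)).f (Additive.ofMul (Subgroup.inclusion hle (ε (Fin.last m))))) x) :=
        Kum.pow_hom hU' (fun x hx => US_sat _ _ (Units.torsionOrder_pos H) x hx) _
          ((ab_iff hn _).1 (hab (Fin.last m))) (φ' (Fin.last m)) x
      change Kum n (gp y x)
      have h2 : y = (φ' (Fin.last m)).f (Additive.ofMul (Subgroup.inclusion hle (ε (Fin.last m)))) ∨
          y = -(φ' (Fin.last m)).f (Additive.ofMul (Subgroup.inclusion hle (ε (Fin.last m)))) := by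
        rcases neg_one_pow_eq_or (MonoidAlgebra ℤ G) (m + 1) with h3 | h3
        · left
          change (-1) ^ (m + 1) * _ = _
          rw [h3, one_mul]
        · right
          change (-1) ^ (m + 1) * _ = _
          rw [h3, neg_one_mul]
      rcases h2 with h2 | h2
      · rw [h2]
        exact h1
      · rw [h2, gp_neg]
        have := h1.zpow (-1)
        rwa [zpow_neg_one] at this
  · have hψ : Equi (US H (insert v S)) (RingHom.id _) ψ'.f := fun γ x y hxy => ψ'.equiv γ x y hxy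
    have h1 : ψ'.f (Additive.ofMul ((∏ a, e1 a) * e2)) = ∑ a, z a * ψ'.f (Additive.ofMul (Subgroup.inclusion hle (ε a))) +
        y * ψ'.f (Additive.ofMul ⟨x, hxU⟩) := by
      rw [ofMul_mul, ofMul_prod, map_add, map_sum]
      congr 1
      · refine Finset.sum_congr rfl fun a _ => ?_
        exact hψ.gp hU' (z a) _ _ rfl
      · exact hψ.gp hU' y ⟨x, hxU⟩ _ rfl
    rw [h1, value_eq, ev_wedgeWith, Fin.sum_univ_castSucc, mul_add, map_add, map_sum, Finset.mul_sum]
    congr 1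
    · refine Finset.sum_congr rfl fun a _ => ?_
      have h2 := value_res hle u fun b => (Fin.snoc φ' ψ' : Fin (m + 1 + 1) → GHom G (US H (insert v S)))
        ((Fin.castSucc a).succAbove b)
      rw [h2]
      have h3 : (fun b => res hle ((Fin.snoc φ' ψ' : Fin (m + 1 + 1) → GHom G (US H (insert v S)))
          ((Fin.castSucc a).succAbove b))) =
          (Fin.snoc (fun b : Fin m => res hle (φ' (a.succAbove b))) (res hle ψ') : Fin (m + 1) → GHom G (US H S)) := by
        funext b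
        refine Fin.lastCases ?_ (fun b => ?_) b
        · have e3 : (Fin.castSucc a).succAbove (Fin.last m) = Fin.last (m + 1) := by
            rw [Fin.succAbove_of_le_castSucc _ _ (Fin.castSucc_le_castSucc_iff.2 (Fin.le_last a)), Fin.succ_last]
          rw [Fin.snoc_last, e3, Fin.snoc_last]
        · rw [Fin.snoc_castSucc, Fin.castSucc_succAbove_castSucc, Fin.snoc_castSucc]
      rw [h3]
      have h4 := hε a (res hle ψ')
      have h5 : (Fin.snoc φ' ψ' : Fin (m + 1 + 1) → GHom G (US H (insert v S))) (Fin.castSucc a) = φ' a :=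
        Fin.snoc_castSucc _ _ _
      rw [h5]
      have h6 : (res hle ψ').f (Additive.ofMul (ε a)) = ψ'.f (Additive.ofMul (Subgroup.inclusion hle (ε a))) := rfl
      rw [h6] at h4
      rw [map_mul, ← h4]
      change ((N * Units.torsionOrder H : ℕ) : MonoidAlgebra ℚ G) * ((-1) ^ (a : ℕ) * toQ ((φ' a).f (Additive.ofMul ⟨x, hxU⟩)) * _) =
        toQ ((-1) ^ (a : ℕ) * (φ' a).f (Additive.ofMul ⟨x, hxU⟩)) * _
      rw [map_mul, map_pow, map_neg, map_one]
      ring
    · have h2 := value_res hle u fun b => (Fin.snoc φ' ψ' : Fin (m + 1 + 1) → GHom G (US H (insert v S)))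
        ((Fin.last (m + 1)).succAbove b)
      rw [h2]
      have h3 : (fun b => res hle ((Fin.snoc φ' ψ' : Fin (m + 1 + 1) → GHom G (US H (insert v S)))
          ((Fin.last (m + 1)).succAbove b))) =
          (Fin.snoc (fun b : Fin m => res hle (φ' ((Fin.last m).succAbove b))) (res hle (φ' (Fin.last m))) :
            Fin (m + 1) → GHom G (US H S)) := by
        funext b
        rw [Fin.succAbove_last, Fin.snoc_castSucc]
        refine Fin.lastCases ?_ (fun b => ?_) b
        · rw [Fin.snoc_last]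
        · rw [Fin.snoc_castSucc, Fin.succAbove_last]
      rw [h3]
      have h4 := hε (Fin.last m) (res hle (φ' (Fin.last m)))
      have h5 : (Fin.snoc φ' ψ' : Fin (m + 1 + 1) → GHom G (US H (insert v S))) (Fin.last (m + 1)) = ψ' :=
        Fin.snoc_last _ _
      rw [h5]
      have h6 : (res hle (φ' (Fin.last m))).f (Additive.ofMul (ε (Fin.last m))) =
          (φ' (Fin.last m)).f (Additive.ofMul (Subgroup.inclusion hle (ε (Fin.last m)))) := rfl
      rw [h6] at h4
      change ((N * Units.torsionOrder H : ℕ) : MonoidAlgebra ℚ G) * ((-1) ^ (m + 1) * toQ (ψ'.f (Additive.ofMul ⟨x, hxU⟩)) * _) =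
        toQ ((-1) ^ (m + 1) * (φ' (Fin.last m)).f (Additive.ofMul (Subgroup.inclusion hle (ε (Fin.last m)))) * _)
      rw [map_mul, map_mul, ← h4, map_pow, map_neg, map_one]
      ring

/-- the same with the factor `n⁻¹` -/
theorem lattice_scale {n : ℕ} (hn : 0 < n) (x : Hˣ) (hxU : x ∈ US H (insert v S)) (hle : US H S ≤ US H (insert v S))
    (u : Wedge G (m + 1) (US H S)) (hL : InLatticeN N u) :
    InLatticeN (N * n) (scale (algebraMap ℚ (MonoidAlgebra ℚ G) (n : ℚ)⁻¹) (wedgeWith hle ⟨x, hxU⟩ u)) := by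
  intro φ'
  obtain ⟨ε, hab, hε⟩ := lattice_wedge x hxU hle u hL φ'
  refine ⟨ε, hab, fun ψ' => ?_⟩
  rw [← hε ψ', value_eq, value_eq, ev_scale]
  rw [RingHom.id_apply]
  have h1 : ((N * n * Units.torsionOrder H : ℕ) : MonoidAlgebra ℚ G) * algebraMap ℚ (MonoidAlgebra ℚ G) (n : ℚ)⁻¹ =
      ((N * Units.torsionOrder H : ℕ) : MonoidAlgebra ℚ G) := by
    rw [← map_natCast (algebraMap ℚ (MonoidAlgebra ℚ G)), ← map_mul, ← map_natCast (algebraMap ℚ (MonoidAlgebra ℚ G))]
    congr 1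
    have h2 : (n : ℚ) ≠ 0 := by exact_mod_cast hn.ne'
    push_cast
    field_simp
  rw [← mul_assoc, h1]

/-- **From `S` to `S ∪ {v}`**, `v` split completely and a power `P ^ n` principal outside `S`. -/
theorem popescu_upNn (Λ : LData F H G) {P : HeightOneSpectrum (𝓞 H)} {w : Fin (m + 1) → Place H} (hS : Unram H S)
    (hv : v ∉ S) (hP : Above {v} P) (hs : ∀ γ : G, Fixes (Sum.inr P : Place H) γ → γ = 1) (n : ℕ) (hn : 0 < n) (x : Hˣ)
    (hx1 : od P (Additive.ofMul x) = n)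
    (hx2 : ∀ w' : HeightOneSpectrum (𝓞 H), w' ≠ P → ¬ Above (S : Set (HeightOneSpectrum (𝓞 F))) w' →
      od w' (Additive.ofMul x) = 0)
    (h : PopescuN N Λ S w) :
    PopescuN (N * n) Λ (insert v S) (Fin.cons (Sum.inr P) w : Fin (m + 1 + 1) → Place H) := by
  obtain ⟨u, hE, hL⟩ := h
  have hxU : x ∈ US H (insert v S) := mem_insert_of hP x hx2
  have hle : US H S ≤ US H (insert v S) := US_mono (Finset.subset_insert v S)
  exact ⟨_, eta_upn Λ hS hv hP hs n hn x hx1 hx2 hxU hle u hE, lattice_scale hn x hxU hle u hL⟩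

end lat

/-- places which split completely are added, `p`-part -/
theorem local_set (Λ : LData F H G) [DecidableEq (HeightOneSpectrum (𝓞 F))] {p : ℕ} (hp : p.Prime)
    {S₀ : Finset (HeightOneSpectrum (𝓞 F))} (hS : Unram H S₀)
    (hcl : ∀ P : HeightOneSpectrum (𝓞 H), ¬ Above (S₀ : Set (HeightOneSpectrum (𝓞 F))) P →
      ∃ (n : ℕ) (x : Hˣ), ¬ p ∣ n ∧ od P (Additive.ofMul x) = n ∧ ∀ w' : HeightOneSpectrum (𝓞 H), w' ≠ P →
        ¬ Above (S₀ : Set (HeightOneSpectrum (𝓞 F))) w' → od w' (Additive.ofMul x) = 0)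
    {m₀ : ℕ} {w₀ : Fin (m₀ + 1) → Place H} (hw₀ : System G S₀ w₀) (fw₀ : Full G S₀ w₀)
    (h : ∃ N : ℕ, ¬ p ∣ N ∧ PopescuN N Λ S₀ w₀) (T : Finset (HeightOneSpectrum (𝓞 F)))
    (hT : ∀ v ∈ T, ∀ P : HeightOneSpectrum (𝓞 H), Above {v} P → ∀ γ : G, Fixes (Sum.inr P : Place H) γ → γ = 1) :
    ∃ (m : ℕ) (w : Fin (m + 1) → Place H), System G (S₀ ∪ T) w ∧ Full G (S₀ ∪ T) w ∧
      ∃ N : ℕ, ¬ p ∣ N ∧ PopescuN N Λ (S₀ ∪ T) w := by
  induction T using Finset.induction_on with
  | empty =>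
    rw [Finset.union_empty]
    exact ⟨m₀, w₀, hw₀, fw₀, h⟩
  | insert v T hvT ih =>
    obtain ⟨m, w, hw, fw, N, hpN, hN⟩ := ih fun v' hv' => hT v' (Finset.mem_insert_of_mem hv')
    by_cases hv : v ∈ S₀ ∪ T
    · rw [Finset.union_insert, Finset.insert_eq_self.2 hv]
      exact ⟨m, w, hw, fw, N, hpN, hN⟩
    · rw [Finset.union_insert]
      have hS' : Unram H (S₀ ∪ T) := fun v' hv' => hS v' fun h => hv' (Finset.mem_union_left _ h)
      obtain ⟨P, hP⟩ := (Pool.Agent.K3h25.RS.t_OVER F H v).1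
      have hs := hT v (Finset.mem_insert_self _ _) P hP
      have hv₀ : v ∉ S₀ := fun h => hv (Finset.mem_union_left _ h)
      obtain ⟨n, x, hpn, hx1, hx2⟩ := hcl P (not_above_of hv₀ hP)
      have hn : 0 < n := Nat.pos_of_ne_zero fun h0 => hpn (h0 ▸ dvd_zero p)
      refine ⟨m + 1, Fin.cons (Sum.inr P) w, system_cons hv hP hs hw, full_cons hP fw, N * n,
        fun h1 => (hp.dvd_mul.1 h1).elim hpN hpn,
        popescu_upNn Λ hS' hv hP hs n hn x hx1 (fun w' h1 h2 => hx2 w' h1 fun h3 => h2 ?_) hN⟩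
      obtain ⟨v', hv', h4⟩ := h3
      exact ⟨v', by rw [Finset.coe_union]; exact Or.inl hv', h4⟩

/-- **The `p`-part from one instance**, if the `p`-part of the class group is generated by the prime ideals over `S₀`. -/
theorem local_all (Λ : LData F H G) {p : ℕ} (hp : p.Prime) {S₀ : Finset (HeightOneSpectrum (𝓞 F))} (hS₀ : Unram H S₀)
    (hcl : ∀ P : HeightOneSpectrum (𝓞 H), ¬ Above (S₀ : Set (HeightOneSpectrum (𝓞 F))) P →
      ∃ (n : ℕ) (x : Hˣ), ¬ p ∣ n ∧ od P (Additive.ofMul x) = n ∧ ∀ w' : HeightOneSpectrum (𝓞 H), w' ≠ P →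
        ¬ Above (S₀ : Set (HeightOneSpectrum (𝓞 F))) w' → od w' (Additive.ofMul x) = 0)
    {m₀ : ℕ} {w₀ : Fin (m₀ + 1) → Place H} (hw₀ : System G S₀ w₀) (fw₀ : Full G S₀ w₀)
    (h : ∃ N : ℕ, ¬ p ∣ N ∧ PopescuN N Λ S₀ w₀) :
    ∃ N : ℕ, ¬ p ∣ N ∧ ∀ S : Finset (HeightOneSpectrum (𝓞 F)), Unram H S →
      (∀ v ∈ S₀, v ∉ S → ∀ P : HeightOneSpectrum (𝓞 H), Above {v} P → ∀ γ : G,
        Fixes (Sum.inr P : Place H) γ → γ = 1) →
      (∃ u : Place H, InS (S : Set (HeightOneSpectrum (𝓞 F))) u ∧ ∃ γ : G, Fixes u γ ∧ γ ≠ 1) →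
      ∀ (m : ℕ) (w : Fin (m + 1) → Place H), System G S w → PopescuN N Λ S w := by
  classical
  obtain ⟨D, -, hD, hpr⟩ := exists_D (H := H) G S₀ hS₀
  obtain ⟨m₁, w₁, hw₁, fw₁, N, hpN, hN⟩ := local_set Λ hp hS₀ hcl hw₀ fw₀ h D fun v hv => (hD v hv).2
  have hS₁ : Unram H (S₀ ∪ D) := fun v hv => hS₀ v fun h => hv (Finset.mem_union_left _ h)
  refine ⟨N, hpN, fun S hS hsp hns m w hw => popescu_allN Λ hS₁ hpr hw₁ fw₁ hN hS (fun v hv hvS => ?_) hns hw⟩
  rcases Finset.mem_union.1 hv with hv | hv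
  · exact hsp v hv hvS
  · exact (hD v hv).2

end Pool.Agent.T9h51.PN
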