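import Pool.Agent.T9h51.PN.Local

/-!
# The `p`-part of Popescu's conjecture from Stickelberger elements; class numbers prime to `p`
-/

set_option autoImplicit false
set_option linter.unusedSectionVars false

open NumberField IsDedekindDomain Filter Topology

noncomputable section

namespace Pool.Agent.T9h51.PN

open Pool.Agent.K3h30.RS Pool.Agent.T9h51.PS

variable {F H G : Type} [Field F] [NumberField F] [Field H] [NumberField H] [Algebra F H]
  [CommGroup G] [Finite G] [MulSemiringAction G H] [IsGaloisGroup G F H]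

/-- `N a θ` is in `ℤ[G]` for all `a` in `ℤ[G]` which annihilate the roots of unity of `H` -/
def Integral (H : Type) [Field H] [NumberField H] {G : Type} [CommGroup G] [Finite G] [MulSemiringAction G H]
    (N : ℕ) (θ : MonoidAlgebra ℚ G) : Prop :=
  ∀ a : MonoidAlgebra ℤ G, (∀ ζ : Hˣ, ζ ^ Units.torsionOrder H = 1 → gp a ζ = 1) →
    ∃ z : MonoidAlgebra ℤ G, toQ z = (N : MonoidAlgebra ℚ G) * toQ a * θ

/-- the powers `x ^ (N w θ)` satisfy the abelian condition -/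
theorem kum_theta {n : G → ℤ} (hn : IsExp (H := H) n) {N : ℕ} {θ : MonoidAlgebra ℚ G} (hθ : Integral H N θ) (x : Hˣ)
    (z : MonoidAlgebra ℤ G) (hz : toQ z = ((N * Units.torsionOrder H : ℕ) : MonoidAlgebra ℚ G) * θ) : Kum n (gp z x) := by
  have h1 : ∀ s : G, ∃ z : MonoidAlgebra ℤ G,
      toQ z = (N : MonoidAlgebra ℚ G) * (MonoidAlgebra.single s 1 - ((n s : ℤ) : MonoidAlgebra ℚ G)) * θ := by
    intro s
    obtain ⟨z, hz⟩ := hθ (MonoidAlgebra.single s 1 - ((n s : ℤ) : MonoidAlgebra ℤ G)) (fun ζ hζ => by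
      rw [sub_eq_add_neg, gp_add, gp_neg, gp_single, zpow_one, MonoidAlgebra.intCast_def, gp_single, act_one,
        hn s ζ hζ]
      simp)
    refine ⟨z, ?_⟩
    rw [hz, map_sub, map_intCast]
    have h2 : toQ (MonoidAlgebra.single s (1 : ℤ)) = MonoidAlgebra.single s (1 : ℚ) := by
      simp [toQ]
    rw [h2]
  choose y hy using h1
  have hs1 : ∀ s : G, toQ (MonoidAlgebra.single s (1 : ℤ)) = MonoidAlgebra.single s (1 : ℚ) := fun s => by
    simp [toQ]
  refine ⟨fun s => gp (y s) x, fun s => ?_, fun s t => ?_⟩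
  · rw [← gp_single_mul, ← gp_zsmul, ← gp_nsmul, ← gp_add]
    congr 1
    apply toQ_injective
    rw [map_mul, map_add, map_zsmul, map_nsmul, hz, hy, hs1, zsmul_eq_mul, nsmul_eq_mul]
    push_cast
    ring
  · rw [← gp_single_mul, ← gp_zsmul, ← gp_add, ← gp_single_mul, ← gp_zsmul, ← gp_add]
    congr 1
    apply toQ_injective
    rw [map_add, map_add, map_mul, map_mul, map_zsmul, map_zsmul, hy, hy, hs1, hs1, zsmul_eq_mul, zsmul_eq_mul]
    ring

/-- the roots of unity are annihilated by their number -/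
theorem exists_wz {N : ℕ} {θ : MonoidAlgebra ℚ G} (hθ : Integral H N θ) :
    ∃ z : MonoidAlgebra ℤ G, toQ z = ((N * Units.torsionOrder H : ℕ) : MonoidAlgebra ℚ G) * θ := by
  obtain ⟨z, hz⟩ := hθ ((Units.torsionOrder H : ℕ) : MonoidAlgebra ℤ G) (fun ζ hζ => by
    rw [MonoidAlgebra.natCast_def, gp_single, act_one]
    rw [zpow_natCast]
    exact hζ)
  refine ⟨z, ?_⟩
  rw [hz, map_natCast]
  push_cast
  ring

section base

variable [DecidableEq (HeightOneSpectrum (𝓞 F))] {v : HeightOneSpectrum (𝓞 F)} {S : Finset (HeightOneSpectrum (𝓞 F))}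
  {P : HeightOneSpectrum (𝓞 H)} {w : Fin 0 → Place H}

/-- from `r = 0` to `r = 1` -/
theorem popescu_base (Λ : LData F H G) (hS : Unram H S) (hv : v ∉ S) (hP : Above {v} P)
    (hs : ∀ γ : G, Fixes (Sum.inr P : Place H) γ → γ = 1) (n : ℕ) (hn : 0 < n) (x : Hˣ)
    (hx1 : od P (Additive.ofMul x) = n)
    (hx2 : ∀ w' : HeightOneSpectrum (𝓞 H), w' ≠ P → ¬ Above (S : Set (HeightOneSpectrum (𝓞 F))) w' →
      od w' (Additive.ofMul x) = 0)
    (u : Wedge G 0 (US H S)) (hE : IsEta Λ S w u) (N : ℕ) (hN : Integral H N (∑ k, u.c k)) :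
    PopescuN (N * n) Λ (insert v S) (Fin.cons (Sum.inr P) w : Fin (0 + 1) → Place H) := by
  classical
  have hxU : x ∈ US H (insert v S) := mem_insert_of hP x hx2
  have hle : US H S ≤ US H (insert v S) := US_mono (Finset.subset_insert v S)
  have hU' := US_act (G := G) (H := H) (insert v S)
  refine ⟨_, eta_upn Λ hS hv hP hs n hn x hx1 hx2 hxU hle u hE, fun φ' => ?_⟩
  obtain ⟨z, hz⟩ := exists_wz hN
  obtain ⟨e, he⟩ := exists_isExp H G
  refine ⟨⟨gp z x, gp_mem hU' _ hxU⟩, (ab_iff he _).2 (kum_theta he hN x z hz), fun ψ' => ?_⟩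
  have hψ : Equi (US H (insert v S)) (RingHom.id _) ψ'.f := fun γ x y hxy => ψ'.equiv γ x y hxy
  have h1 : ψ'.f (Additive.ofMul (⟨gp z x, gp_mem hU' _ hxU⟩ : US H (insert v S))) =
      z * ψ'.f (Additive.ofMul ⟨x, hxU⟩) := hψ.gp hU' z ⟨x, hxU⟩ _ rfl
  rw [h1, map_mul, hz, value_eq, ev_scale, ev_wedgeWith, RingHom.id_apply]
  have h2 : ∀ E : Fin 0 → Additive (US H S) →+ MonoidAlgebra ℚ G,
      ev (RingHom.id (MonoidAlgebra ℚ G)) u E = ∑ k, u.c k := by
    intro E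
    unfold ev
    refine Finset.sum_congr rfl fun k _ => ?_
    rw [Matrix.det_isEmpty, mul_one, RingHom.id_apply]
  rw [Fin.sum_univ_succ]
  have h3 : ((N * n * Units.torsionOrder H : ℕ) : MonoidAlgebra ℚ G) * algebraMap ℚ (MonoidAlgebra ℚ G) (n : ℚ)⁻¹ =
      ((N * Units.torsionOrder H : ℕ) : MonoidAlgebra ℚ G) := by
    rw [← map_natCast (algebraMap ℚ (MonoidAlgebra ℚ G)), ← map_mul, ← map_natCast (algebraMap ℚ (MonoidAlgebra ℚ G))]
    congr 1
    have h2 : (n : ℚ) ≠ 0 := by exact_mod_cast hn.ne'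
    push_cast
    field_simp
  rw [h2, ← mul_assoc, h3]
  have h4 : ((-1 : MonoidAlgebra ℚ G)) ^ ((0 : Fin (0 + 1)) : ℕ) = 1 := pow_zero _
  rw [h4, one_mul]
  have h5 : (Fin.snoc φ' ψ' : Fin (0 + 1) → GHom G (US H (insert v S))) 0 = ψ' := Fin.snoc_last _ _
  simp only [Finset.univ_eq_empty, Finset.sum_empty, add_zero]
  rw [h5]
  change ((N * Units.torsionOrder H : ℕ) : MonoidAlgebra ℚ G) * (toQ (ψ'.f (Additive.ofMul ⟨x, hxU⟩)) * _) = _
  ring

end base

/-- the `p`-part of Popescu's conjecture for all `S` from a Stickelberger element -/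
theorem local_zero (Λ : LData F H G) {p : ℕ} (hp : p.Prime) {S₀ : Finset (HeightOneSpectrum (𝓞 F))} (hS₀ : Unram H S₀)
    (hcl : ∀ P : HeightOneSpectrum (𝓞 H), ¬ Above (S₀ : Set (HeightOneSpectrum (𝓞 F))) P →
      ∃ (n : ℕ) (x : Hˣ), ¬ p ∣ n ∧ od P (Additive.ofMul x) = n ∧ ∀ w' : HeightOneSpectrum (𝓞 H), w' ≠ P →
        ¬ Above (S₀ : Set (HeightOneSpectrum (𝓞 F))) w' → od w' (Additive.ofMul x) = 0)
    {w₀ : Fin 0 → Place H} (hw₀ : System G S₀ w₀) (fw₀ : Full G S₀ w₀) (u : Wedge G 0 (US H S₀))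
    (hE : IsEta Λ S₀ w₀ u) (N₀ : ℕ) (hpN : ¬ p ∣ N₀) (hN : Integral H N₀ (∑ k, u.c k)) :
    ∃ N : ℕ, ¬ p ∣ N ∧ ∀ S : Finset (HeightOneSpectrum (𝓞 F)), Unram H S →
      (∀ v ∈ S₀, v ∉ S → ∀ P : HeightOneSpectrum (𝓞 H), Above {v} P → ∀ γ : G,
        Fixes (Sum.inr P : Place H) γ → γ = 1) →
      (∃ u : Place H, InS (S : Set (HeightOneSpectrum (𝓞 F))) u ∧ ∃ γ : G, Fixes u γ ∧ γ ≠ 1) →
      ∀ (m : ℕ) (w : Fin (m + 1) → Place H), System G S w → PopescuN N Λ S w := by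
  classical
  obtain ⟨D, ⟨v, hvD⟩, hD, -⟩ := exists_D (H := H) G S₀ hS₀
  obtain ⟨hv, hsp⟩ := hD v hvD
  obtain ⟨P, hP⟩ := (Pool.Agent.K3h25.RS.t_OVER F H v).1
  have hs := hsp P hP
  obtain ⟨n, x, hpn, hx1, hx2⟩ := hcl P (not_above_of hv hP)
  have hn : 0 < n := Nat.pos_of_ne_zero fun h0 => hpn (h0 ▸ dvd_zero p)
  have hS₁ : Unram H (insert v S₀) := fun v' hv' => hS₀ v' fun h => hv' (Finset.mem_insert_of_mem h)
  have hsub : ∀ P' : HeightOneSpectrum (𝓞 H), Above (S₀ : Set (HeightOneSpectrum (𝓞 F))) P' →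
      Above ((insert v S₀ : Finset (HeightOneSpectrum (𝓞 F))) : Set (HeightOneSpectrum (𝓞 F))) P' := by
    rintro P' ⟨v', hv', h4⟩
    exact ⟨v', by rw [Finset.coe_insert]; exact Or.inr hv', h4⟩
  obtain ⟨N, hN1, hN2⟩ := local_all Λ hp hS₁ (fun P' hP' => by
      obtain ⟨n', x', h1, h2, h3⟩ := hcl P' fun h => hP' (hsub P' h)
      exact ⟨n', x', h1, h2, fun w' h4 h5 => h3 w' h4 fun h6 => h5 (hsub w' h6)⟩)
    (system_cons hv hP hs hw₀) (full_cons hP fw₀)
    ⟨N₀ * n, fun h1 => (hp.dvd_mul.1 h1).elim hpN hpn, popescu_base Λ hS₀ hv hP hs n hn x hx1 hx2 u hE N₀ hN⟩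
  refine ⟨N, hN1, fun S hS h1 h2 m w hw => hN2 S hS (fun v' hv' hv'S => ?_) h2 m w hw⟩
  rcases Finset.mem_insert.1 hv' with rfl | hv'
  · exact hsp
  · exact h1 v' hv' hv'S

/-- a generator of the power `P ^ h` with `h` the class number -/
theorem exists_gen_card (w : HeightOneSpectrum (𝓞 H)) : ∃ x : Hˣ,
    od w (Additive.ofMul x) = (Fintype.card (ClassGroup (𝓞 H)) : ℕ) ∧
    ∀ w' : HeightOneSpectrum (𝓞 H), w' ≠ w → od w' (Additive.ofMul x) = 0 := by
  classical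
  set h := Fintype.card (ClassGroup (𝓞 H)) with hh
  have hp : (w.asIdeal ^ h).IsPrincipal := by
    have hmem : w.asIdeal ∈ nonZeroDivisors (Ideal (𝓞 H)) := mem_nonZeroDivisors_of_ne_zero w.ne_bot
    have h1 : ClassGroup.mk0 (⟨w.asIdeal, hmem⟩ ^ h : nonZeroDivisors (Ideal (𝓞 H))) = 1 := by
      rw [map_pow, pow_card_eq_one]
    rw [ClassGroup.mk0_eq_one_iff] at h1
    exact h1
  obtain ⟨a, ha⟩ := hp
  have ha' : w.asIdeal ^ h = Ideal.span {a} := ha
  have ha0 : a ≠ 0 := by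
    rintro rfl
    rw [Ideal.span_singleton_eq_bot.2 rfl] at ha'
    exact pow_ne_zero h w.ne_bot ha'
  have haH : (a : H) ≠ 0 := by
    intro h0
    exact ha0 (FaithfulSMul.algebraMap_injective (𝓞 H) H (by rw [map_zero]; exact h0))
  have hpos : 0 < h := Fintype.card_pos
  refine ⟨Units.mk0 (a : H) haH, ?_, fun w' hw' => ?_⟩
  · have h1 := (od_ge_iff w a (Units.mk0 (a : H) haH) rfl h).2 (by rw [ha']; exact Ideal.mem_span_singleton_self a)
    have h2 : ¬ ((h + 1 : ℕ) : ℤ) ≤ od w (Additive.ofMul (Units.mk0 (a : H) haH)) := by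
      rw [od_ge_iff w a (Units.mk0 (a : H) haH) rfl]
      intro h3
      have h4 : w.asIdeal ^ h ≤ w.asIdeal ^ (h + 1) := by
        rw [ha', Ideal.span_singleton_le_iff_mem]
        exact h3
      have h5 := Ideal.pow_right_strictAnti w.asIdeal w.ne_bot w.isPrime.ne_top (Nat.lt_succ_self h)
      exact absurd h4 (not_le_of_gt h5)
    push_cast at h2
    omega
  · have h1 := (od_ge_iff w' a (Units.mk0 (a : H) haH) rfl 0).2 (by rw [pow_zero, Ideal.one_eq_top]; trivial)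
    have h2 : ¬ ((1 : ℕ) : ℤ) ≤ od w' (Additive.ofMul (Units.mk0 (a : H) haH)) := by
      rw [od_ge_iff w' a (Units.mk0 (a : H) haH) rfl, pow_one]
      intro h3
      have h4 : w.asIdeal ^ h ≤ w'.asIdeal := by
        rw [ha', Ideal.span_singleton_le_iff_mem]
        exact h3
      have h5 : w.asIdeal ≤ w'.asIdeal := w'.isPrime.le_of_pow_le h4
      have h6 : w.asIdeal = w'.asIdeal := w.isMaximal.eq_of_le w'.isPrime.ne_top h5
      exact hw' (HeightOneSpectrum.ext h6.symm)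
    push_cast at h2
    omega

/-- if `p` does not divide the class number, the `p`-part of the class group is trivial -/
theorem triv_of_card {p : ℕ} (h : ¬ p ∣ Fintype.card (ClassGroup (𝓞 H))) (S₀ : Finset (HeightOneSpectrum (𝓞 F)))
    (P : HeightOneSpectrum (𝓞 H)) : ∃ (n : ℕ) (x : Hˣ), ¬ p ∣ n ∧ od P (Additive.ofMul x) = n ∧
      ∀ w' : HeightOneSpectrum (𝓞 H), w' ≠ P →
        ¬ Above (S₀ : Set (HeightOneSpectrum (𝓞 F))) w' → od w' (Additive.ofMul x) = 0 := by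
  obtain ⟨x, hx1, hx2⟩ := exists_gen_card P
  exact ⟨_, x, h, hx1, fun w' h1 _ => hx2 w' h1⟩

/-- a Stickelberger element as a formal sum -/
theorem eta_zero (Λ : LData F H G) {S : Finset (HeightOneSpectrum (𝓞 F))} {w : Fin 0 → Place H} {θ : MonoidAlgebra ℚ G}
    (h0 : ∀ χ : G →* ℂˣ, ¬ Active S w χ → charValue χ (toR θ) = 0)
    (h1 : ∀ χ : G →* ℂˣ, Active S w χ → Tendsto (Λ.L S χ) (𝓝[≠] 0) (𝓝 (charValue χ⁻¹ (toR θ)))) :
    IsEta Λ S w (⟨1, fun _ => θ, fun _ => Fin.elim0⟩ : Wedge G 0 (US H S)) := by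
  refine ⟨fun χ hχ _ => h0 χ hχ, fun χ hχ => ?_⟩
  have h2 : (⟨1, fun _ => θ, fun _ => Fin.elim0⟩ : Wedge G 0 (US H S)).regulator w = toR θ := by
    unfold Wedge.regulator
    rw [Fin.sum_univ_one, Matrix.det_isEmpty, mul_one]
  rw [h2]
  simpa using h1 χ hχ

end Pool.Agent.T9h51.PN
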