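import Pool.Agent.T9h51.PN.Stark

/-!
# The `p`-part of Popescu's conjecture for sets `S` with many places
-/

set_option autoImplicit false
set_option linter.unusedSectionVars false

open NumberField IsDedekindDomain Filter Topology

noncomputable section

namespace Pool.Agent.T9h51.PN

open Pool.Agent.K3h30.RS Pool.Agent.T9h51.PS

section ring

variable {G : Type} [CommGroup G] [Finite G]

theorem one_sub_pow (p : ℕ) (hp : p.Prime) (g : G) (k : ℕ) (hg : g ^ p ^ k = 1) :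
    ∃ z : MonoidAlgebra ℤ G, (1 - MonoidAlgebra.single g (1 : ℤ)) ^ p ^ k = (p : MonoidAlgebra ℤ G) * z := by
  obtain ⟨r, hr⟩ : ∃ r, (1 + -MonoidAlgebra.single g (1 : ℤ) : MonoidAlgebra ℤ G) ^ p ^ k =
      1 ^ p ^ k + (-MonoidAlgebra.single g (1 : ℤ)) ^ p ^ k + (p : MonoidAlgebra ℤ G) * r := by
    obtain ⟨r, hr⟩ := exists_add_pow_prime_pow_eq hp (1 : MonoidAlgebra ℤ G) (-MonoidAlgebra.single g (1 : ℤ)) k
    refine ⟨1 * -MonoidAlgebra.single g (1 : ℤ) * r, ?_⟩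
    rw [hr]
    ring
  have h1 : (-MonoidAlgebra.single g (1 : ℤ) : MonoidAlgebra ℤ G) ^ p ^ k = (-1) ^ p ^ k := by
    rw [neg_pow, MonoidAlgebra.single_pow, hg, one_pow]
    exact mul_one _
  rw [sub_eq_add_neg, hr, h1, one_pow]
  rcases hp.eq_two_or_odd' with h2 | h2
  · subst h2
    rcases k with - | k
    · exact ⟨r, by simp⟩
    · refine ⟨1 + r, ?_⟩
      have h3 : (-1 : MonoidAlgebra ℤ G) ^ 2 ^ (k + 1) = 1 := by
        rw [pow_succ, pow_mul', neg_one_sq, one_pow]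
      rw [h3]
      push_cast
      ring
  · refine ⟨r, ?_⟩
    rw [(h2.pow).neg_one_pow]
    ring

/-- a product of many elements `1 - g`, `g` of `p`-power order, is divisible by a power of `p` -/
theorem prod_dvd {ι : Type} (p : ℕ) (hp : p.Prime) (a : ℕ) (A : Finset ι) (f : ι → G)
    (hf : ∀ i ∈ A, ∃ k, f i ^ p ^ k = 1) (hA : Nat.card G * (a * Nat.card G) ≤ A.card) :
    ∃ z : MonoidAlgebra ℤ G, ∏ i ∈ A, (1 - MonoidAlgebra.single (f i) (1 : ℤ)) = (p ^ a : ℕ) * z := by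
  classical
  let _ := Fintype.ofFinite G
  rcases Nat.eq_zero_or_pos a with rfl | ha
  · exact ⟨_, by rw [pow_zero, Nat.cast_one, one_mul]⟩
  have hG : 0 < Nat.card G := Nat.card_pos
  have hAne : A.Nonempty := by
    rw [← Finset.card_pos]
    exact lt_of_lt_of_le (Nat.mul_pos hG (Nat.mul_pos ha hG)) hA
  obtain ⟨g, -, hg⟩ := Finset.exists_le_card_fiber_of_mul_le_card_of_maps_to (s := A) (t := (Finset.univ : Finset G))
    (f := f) (n := a * Nat.card G) (fun _ _ => Finset.mem_univ _) ⟨1, Finset.mem_univ _⟩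
    (by rw [Finset.card_univ, ← Nat.card_eq_fintype_card]; exact hA)
  set B := A.filter fun i => f i = g with hB
  have hBne : B.Nonempty := by
    rw [← Finset.card_pos]
    exact lt_of_lt_of_le (Nat.mul_pos ha hG) hg
  obtain ⟨i₀, hi₀⟩ := hBne
  have hgk : ∃ k, g ^ p ^ k = 1 := by
    have h1 := (Finset.mem_filter.1 hi₀)
    obtain ⟨k, hk⟩ := hf i₀ h1.1
    exact ⟨k, by rw [← h1.2]; exact hk⟩
  obtain ⟨k', hk'⟩ := hgk
  obtain ⟨k, -, hk⟩ := (Nat.dvd_prime_pow hp).1 (orderOf_dvd_of_pow_eq_one hk')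
  have hgk : g ^ p ^ k = 1 := by rw [← hk]; exact pow_orderOf_eq_one g
  have hle : p ^ k ≤ Nat.card G := by
    rw [← hk]
    exact Nat.le_of_dvd hG (orderOf_dvd_natCard g)
  obtain ⟨z, hz⟩ := one_sub_pow p hp g k hgk
  have h2 : ∏ i ∈ B, (1 - MonoidAlgebra.single (f i) (1 : ℤ)) = (1 - MonoidAlgebra.single g (1 : ℤ)) ^ B.card := by
    rw [Finset.prod_congr rfl fun i hi => by rw [(Finset.mem_filter.1 hi).2], Finset.prod_const]
  obtain ⟨c, hc⟩ : ∃ c, B.card = p ^ k * a + c := by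
    refine ⟨B.card - p ^ k * a, ?_⟩
    have : p ^ k * a ≤ B.card := by
      calc p ^ k * a ≤ Nat.card G * a := Nat.mul_le_mul_right _ hle
        _ = a * Nat.card G := mul_comm _ _
        _ ≤ _ := hg
    omega
  have h3 : ∏ i ∈ A, (1 - MonoidAlgebra.single (f i) (1 : ℤ)) =
      (∏ i ∈ B, (1 - MonoidAlgebra.single (f i) (1 : ℤ))) *
        ∏ i ∈ A.filter (fun i => ¬ f i = g), (1 - MonoidAlgebra.single (f i) (1 : ℤ)) :=
    (Finset.prod_filter_mul_prod_filter_not A (fun i => f i = g) _).symm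
  refine ⟨z ^ a * (1 - MonoidAlgebra.single g (1 : ℤ)) ^ c *
    ∏ i ∈ A.filter (fun i => ¬ f i = g), (1 - MonoidAlgebra.single (f i) (1 : ℤ)), ?_⟩
  rw [h3, h2, hc, pow_add, pow_mul, hz, mul_pow]
  push_cast
  ring

end ring

variable {F H G : Type} [Field F] [NumberField F] [Field H] [NumberField H] [Algebra F H]
  [CommGroup G] [Finite G] [MulSemiringAction G H] [IsGaloisGroup G F H]

section add

variable [DecidableEq (HeightOneSpectrum (𝓞 F))] {v : HeightOneSpectrum (𝓞 F)} {S : Finset (HeightOneSpectrum (𝓞 F))}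
  {P : HeightOneSpectrum (𝓞 H)} {m : ℕ} {w : Fin (m + 1) → Place H}

/-- the element `η'` for `S ∪ {v}` -/
theorem eta_add (Λ : LData F H G) (hS : Unram H S) (hv : v ∉ S) (hP : Above {v} P) (hw : System G S w)
    {u : Wedge G (m + 1) (US H S)} (hE : IsEta Λ S w u) :
    IsEta Λ (insert v S) w (up (US_mono (Finset.subset_insert v S))
      (scale (toQ (1 - MonoidAlgebra.single (Λ.σ v)⁻¹ 1)) u)) := by
  classical
  have hle : US H S ≤ US H (insert v S) := US_mono (Finset.subset_insert v S)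
  let z : MonoidAlgebra ℤ G := 1 - MonoidAlgebra.single (Λ.σ v)⁻¹ 1
  have hz : ∀ χ : G →* ℂˣ, charValue χ (toR (toQ z)) = 1 - ((χ⁻¹ (Λ.σ v) : ℂˣ) : ℂ) := by
    intro χ
    rw [Pool.Agent.K3h62.RS.charValue_eq]
    change Pool.Agent.K3h62.RS.cvHom χ (toR (toQ (1 - MonoidAlgebra.single (Λ.σ v)⁻¹ 1))) = _
    rw [map_sub, map_sub, map_sub, map_one, map_one, map_one]
    have h1 : toR (toQ (MonoidAlgebra.single (Λ.σ v)⁻¹ (1 : ℤ))) = MonoidAlgebra.single (Λ.σ v)⁻¹ (1 : ℝ) :=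
      toRQ_single _
    rw [h1, Pool.Agent.K3h62.RS.cvHom_single, MonoidHom.inv_apply, map_inv]
    push_cast
    ring
  refine ⟨fun χ hχ k => ?_, fun χ hχ => ?_⟩
  · change charValue χ (toR (toQ z * u.c k)) = 0
    by_cases h1 : Active S w χ
    · have h2 : χ (Λ.σ v) = 1 := by
        by_contra hne
        apply hχ
        rw [active_iff] at h1 ⊢
        rcases h1 with h1 | ⟨h1, -⟩
        · refine Or.inl fun p hp => ?_
          rcases p with q | w'
          · exact h1 _ ⟨trivial, hp.2⟩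
          · rcases (above_insert_iff w').1 hp.1 with h3 | h3
            · exact ⟨Λ.σ v, frob_fixes (Λ.frob v (hS v hv)) h3, hne⟩
            · exact h1 _ ⟨h3, hp.2⟩
        · rw [h1] at hne
          exact absurd rfl hne
      rw [charValue_zero_of_mul]
      rw [hz, MonoidHom.inv_apply, h2]
      simp
    · rw [mul_comm]
      exact charValue_zero_of_mul χ _ _ (hE.inE χ h1 k)
  · have h1 := lim_insert Λ hS hv χ (m + 1) (hE.stark χ (active_of_insert hv hP hw hχ))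
    have h2 : (up hle (scale (toQ z) u)).regulator w = toR (toQ z) * u.regulator w := by
      rw [regulator_eq_ev, ev_up, ev_scale]
      rfl
    have h3 : (1 - ((χ (Λ.σ v) : ℂˣ) : ℂ)) * ((-1) ^ (m + 1) * charValue χ⁻¹ (u.regulator w)) =
        (-1) ^ (m + 1) * charValue χ⁻¹ ((up hle (scale (toQ z) u)).regulator w) := by
      rw [h2, Pool.Agent.K3h62.RS.charValue_mul, hz, MonoidHom.inv_apply, MonoidHom.inv_apply, inv_inv]
      ring
    rw [← h3]
    exact h1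

/-- the element `η'` for `S ∪ A` -/
theorem eta_union (Λ : LData F H G) (hS : Unram H S) (hw : System G S w) {u : Wedge G (m + 1) (US H S)}
    (hE : IsEta Λ S w u) (A : Finset (HeightOneSpectrum (𝓞 F))) (hA : Disjoint A S) :
    ∃ (u' : Wedge G (m + 1) (US H (S ∪ A))) (hle : US H S ≤ US H (S ∪ A)), IsEta Λ (S ∪ A) w u' ∧ System G (S ∪ A) w ∧
      ∀ Ψ : Fin (m + 1) → GHom G (US H (S ∪ A)), u'.value Ψ =
        toQ (∏ v ∈ A, (1 - MonoidAlgebra.single (Λ.σ v)⁻¹ (1 : ℤ))) * u.value fun a => res hle (Ψ a) := by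
  induction A using Finset.induction_on with
  | empty =>
    rw [Finset.union_empty]
    exact ⟨u, le_rfl, hE, hw, fun Ψ => by rw [Finset.prod_empty, map_one, one_mul]; rfl⟩
  | insert v A hvA ih =>
    rw [Finset.disjoint_insert_left] at hA
    obtain ⟨u', hle, h1, h2, h3⟩ := ih hA.2
    rw [Finset.union_insert]
    have hv : v ∉ S ∪ A := by
      rw [Finset.mem_union, not_or]
      exact ⟨hA.1, hvA⟩
    have hS' : Unram H (S ∪ A) := fun v' hv' => hS v' fun h => hv' (Finset.mem_union_left _ h)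
    obtain ⟨P, hP⟩ := (Pool.Agent.K3h25.RS.t_OVER F H v).1
    refine ⟨_, hle.trans (US_mono (Finset.subset_insert v (S ∪ A))), eta_add Λ hS' hv hP h2 h1, system_insert h2,
      fun Ψ => ?_⟩
    rw [value_eq, ev_up, ev_scale, RingHom.id_apply, value_res, h3, Finset.prod_insert hvA, map_mul, mul_assoc]
    rfl

end add

/-- **Sets with many places.** -/
theorem many (Λ : LData F H G) {S₀ : Finset (HeightOneSpectrum (𝓞 F))} (hS₀ : Unram H S₀) {r₀ : ℕ}
    {w₀ : Fin r₀ → Place H} (hw₀ : System G S₀ w₀) (fw₀ : Full G S₀ w₀) (h : StarkQ Λ S₀ w₀)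
    (hns₀ : ∃ u : Place H, InS (S₀ : Set (HeightOneSpectrum (𝓞 F))) u ∧ ∃ γ : G, Fixes u γ ∧ γ ≠ 1)
    (p : ℕ) (hp : p.Prime) :
    ∃ N M : ℕ, 0 < N ∧ ¬ p ∣ N ∧ ∀ S A : Finset (HeightOneSpectrum (𝓞 F)), Unram H S →
      (∀ v ∈ S₀, v ∉ S → ∀ P : HeightOneSpectrum (𝓞 H), Above {v} P → ∀ γ : G,
        Fixes (Sum.inr P : Place H) γ → γ = 1) →
      ∀ (m : ℕ) (w : Fin (m + 1) → Place H), System G S w → A ⊆ S → Disjoint A S₀ →
      (∀ v ∈ A, (∃ k : ℕ, Λ.σ v ^ p ^ k = 1) ∧ ∀ (i : Fin (m + 1)) (P : HeightOneSpectrum (𝓞 H)),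
        w i = Sum.inr P → ¬ Above {v} P) → M ≤ A.card → PopescuN N Λ S w := by
  classical
  obtain ⟨N₀, hN₀, hN₀'⟩ := uniform Λ hS₀ hw₀ fw₀ h
  obtain ⟨a, N, hpN, hN⟩ := Nat.exists_eq_pow_mul_and_not_dvd hN₀.ne' p hp.ne_one
  have hNpos : 0 < N := Nat.pos_of_ne_zero fun h0 => hpN (h0 ▸ dvd_zero p)
  refine ⟨N, Nat.card G * (a * Nat.card G), hNpos, hpN, fun S A hS hsp m w hw hAS hA₀ hA hM => ?_⟩
  -- the set without `A`
  have hSA : S \ A ∪ A = S := Finset.sdiff_union_of_subset hAS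
  have hdis : Disjoint A (S \ A) := Finset.disjoint_sdiff
  have hS' : Unram H (S \ A) := by
    intro v hv
    by_cases h1 : v ∈ S
    · have h2 : v ∈ A := by
        by_contra h3
        exact hv (Finset.mem_sdiff.2 ⟨h1, h3⟩)
      exact hS₀ v (Finset.disjoint_left.1 hA₀ h2)
    · exact hS v h1
  obtain ⟨u₁, hu₁, hns⟩ := hns₀
  have hsp' : ∀ v ∈ S₀, v ∉ S \ A → ∀ P : HeightOneSpectrum (𝓞 H), Above {v} P → ∀ γ : G,
      Fixes (Sum.inr P : Place H) γ → γ = 1 := by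
    intro v hv hv'
    refine hsp v hv fun h1 => hv' (Finset.mem_sdiff.2 ⟨h1, fun h2 => ?_⟩)
    exact Finset.disjoint_left.1 hA₀ h2 hv
  have hu₁' : InS ((S \ A : Finset (HeightOneSpectrum (𝓞 F))) : Set (HeightOneSpectrum (𝓞 F))) u₁ := by
    rcases u₁ with q | P
    · trivial
    · obtain ⟨v, hv, hvP⟩ := above_mem hu₁
      change Above _ P
      rw [above_iff hvP, Finset.mem_coe]
      by_contra h1
      obtain ⟨γ, hγ1, hγ2⟩ := hns
      exact hγ2 (hsp' v (Finset.mem_coe.1 hv) h1 P hvP γ hγ1)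
  have hw' : System G (S \ A) w := by
    refine ⟨fun i => ?_, hw.splits, hw.distinct, u₁, hu₁', fun i hi => ?_⟩
    · have h1 := hw.inS i
      rcases hwi : w i with q | P
      · trivial
      · rw [hwi] at h1
        obtain ⟨v, hv, hvP⟩ := above_mem h1
        change Above _ P
        rw [above_iff hvP, Finset.mem_coe, Finset.mem_sdiff]
        exact ⟨hv, fun h2 => (hA v h2).2 i P hwi hvP⟩
    · obtain ⟨γ, hγ1, hγ2⟩ := hns
      exact hγ2 (hw.splits i γ ((fixes_conj hi γ).1 hγ1))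
  obtain ⟨u, hE, hL⟩ := hN₀' (S \ A) hS' hsp' ⟨u₁, hu₁', hns⟩ m w hw'
  obtain ⟨u', hle, hE', -, hval⟩ : ∃ (u' : Wedge G (m + 1) (US H S)) (hle : US H (S \ A) ≤ US H S), IsEta Λ S w u' ∧
      System G S w ∧ ∀ Ψ : Fin (m + 1) → GHom G (US H S), u'.value Ψ =
        toQ (∏ v ∈ A, (1 - MonoidAlgebra.single (Λ.σ v)⁻¹ (1 : ℤ))) * u.value fun a => res hle (Ψ a) := by
    have h5 := eta_union Λ hS' hw' hE A hdis
    rw [hSA] at h5
    exact h5
  obtain ⟨z, hz⟩ := prod_dvd p hp a A (fun v => (Λ.σ v)⁻¹) (fun v hv => by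
    obtain ⟨k, hk⟩ := (hA v hv).1
    exact ⟨k, by rw [inv_pow, hk, inv_one]⟩) hM
  obtain ⟨n, hn⟩ := exists_isExp H G
  have hU := US_act (G := G) (H := H) S
  refine ⟨u', hE', fun φ => ?_⟩
  obtain ⟨ε, hab, hε⟩ := hL fun i => res hle (φ i)
  refine ⟨⟨gp z ((Subgroup.inclusion hle ε : US H S) : Hˣ), gp_mem hU _ (Subgroup.inclusion hle ε).2⟩, ?_, fun ψ => ?_⟩
  · rw [ab_iff hn]
    exact ((ab_iff hn _).1 hab).gpow z
  · have hψ : Equi (US H S) (RingHom.id _) ψ.f := fun γ x y hxy => ψ.equiv γ x y hxy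
    rw [hψ.gp hU z (Subgroup.inclusion hle ε) _ rfl, RingHom.id_apply, map_mul, hval, hz]
    have h1 := hε (res hle ψ)
    have h2 : (fun b => res hle ((Fin.snoc φ ψ : Fin (m + 1) → GHom G (US H S)) b)) =
        (Fin.snoc (fun i => res hle (φ i)) (res hle ψ) : Fin (m + 1) → GHom G (US H (S \ A))) := by
      funext b
      refine Fin.lastCases ?_ (fun b => ?_) b
      · rw [Fin.snoc_last, Fin.snoc_last]
      · rw [Fin.snoc_castSucc, Fin.snoc_castSucc]
    have h3 : (res hle ψ).f (Additive.ofMul ε) = ψ.f (Additive.ofMul (Subgroup.inclusion hle ε)) := rfl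
    rw [h2, ← h3, ← h1, map_mul, map_natCast, hN]
    push_cast
    ring

end Pool.Agent.T9h51.PN
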