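import Pool.Agent.T9h51.PN.Defs

/-!
# The moves up to the factor `N`
-/

set_option autoImplicit false
set_option linter.unusedSectionVars false

open NumberField IsDedekindDomain Filter Topology

noncomputable section

namespace Pool.Agent.T9h51.PN

open Pool.Agent.K3h30.RS Pool.Agent.T9h51.PS

variable {F H G : Type} [Field F] [NumberField F] [Field H] [NumberField H] [Algebra F H]
  [CommGroup G] [Finite G] [MulSemiringAction G H] [IsGaloisGroup G F H] {N : ℕ}

section downup

variable [DecidableEq (HeightOneSpectrum (𝓞 F))] {v : HeightOneSpectrum (𝓞 F)} {S : Finset (HeightOneSpectrum (𝓞 F))}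
  {P : HeightOneSpectrum (𝓞 H)} {m : ℕ} {w : Fin (m + 1) → Place H}

/-- **From `S ∪ {v}` to `S`**, `v` split completely. -/
theorem popescu_downN (Λ : LData F H G) (hS : Unram H S) (hv : v ∉ S) (hP : Above {v} P)
    (hs : ∀ γ : G, Fixes (Sum.inr P : Place H) γ → γ = 1)
    (h : PopescuN N Λ (insert v S) (Fin.cons (Sum.inr P) w : Fin (m + 1 + 1) → Place H)) : PopescuN N Λ S w := by
  obtain ⟨u', hE, hL⟩ := h
  have hσ := sigma_one Λ hS hv hP hs
  have hN : Ideal.absNorm P.asIdeal = Ideal.absNorm v.asIdeal := by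
    have h1 := Λ.frob v (hS v hv)
    rw [hσ] at h1
    exact absNorm_of_frob_one h1 hP
  obtain ⟨h, x, hh, hx1, hx2⟩ := exists_gen P
  have hxU : x ∈ US H (insert v S) := mem_insert_of hP x fun w' h1 _ => hx2 w' h1
  have hle : US H S ≤ US H (insert v S) := US_mono (Finset.subset_insert v S)
  have hπ : (ordG (G := G) (insert v S) P).f (Additive.ofMul ⟨x, hxU⟩) = MonoidAlgebra.single 1 (h : ℤ) :=
    ordG_gen hv hP hs ⟨x, hxU⟩ h hx1 fun w' h1 _ => hx2 w' h1
  have hker : ∀ y : US H (insert v S), (ordG (G := G) (insert v S) P).f (Additive.ofMul y) = 0 → (y : Hˣ) ∈ US H S :=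
    fun y => (ordG_zero_iff hv hP y).1
  have hker0 : ∀ y : US H S, (ordG (G := G) (insert v S) P).f (Additive.ofMul (Subgroup.inclusion hle y)) = 0 :=
    fun y => (ordG_zero_iff hv hP _).2 y.2
  have hU' := US_act (G := G) (H := H) (insert v S)
  refine ⟨contract hU' (ordG (insert v S) P) hker ⟨x, hxU⟩ h hπ u', ⟨fun χ hχ k => ?_, fun χ hχ => ?_⟩, fun φ => ?_⟩
  · refine charValue_zero_of_mul χ _ _ (hE.inE χ ?_ _)
    rw [active_congr (oth_cons hv hP) χ]
    exact hχ
  · have h1 : Active (insert v S) (Fin.cons (Sum.inr P) w : Fin (m + 1 + 1) → Place H) χ := by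
      rw [active_congr (oth_cons hv hP) χ]
      exact hχ
    have h2 := hE.stark χ h1
    have h3 : u'.regulator (Fin.cons (Sum.inr P) w : Fin (m + 1 + 1) → Place H) =
        algebraMap ℝ (MonoidAlgebra ℝ G) (-Real.log (Ideal.absNorm P.asIdeal : ℝ)) *
        (contract hU' (ordG (insert v S) P) hker ⟨x, hxU⟩ h hπ u').regulator w := by
      have h4 : (contract hU' (ordG (insert v S) P) hker ⟨x, hxU⟩ h hπ u').regulator w =
          ev (toR (G := G)) u' (Fin.cons (((toR (G := G)).comp toQ : MonoidAlgebra ℤ G →+* MonoidAlgebra ℝ G).toAddMonoidHom.comp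
            (ordG (insert v S) P).f) fun a => regHom G (w a) (US H (insert v S))) :=
        ev_contract hU' (ordG (insert v S) P) hker ⟨x, hxU⟩ h hh hπ hle u' (toR (G := G))
          (fun a => regHom G (w a) (US H (insert v S))) fun a => equi_reg _ _
      rw [h4, ← ev_cons_mul (f0' := regHom G (Sum.inr P) (US H (insert v S)))]
      · rw [regulator_eq_ev]
        congr 1
        funext a
        refine Fin.cases ?_ (fun a => ?_) a
        · rfl
        · rfl
      · intro y
        have h5 := reg_ordG (G := G) (insert v S) P (Additive.toMul y)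
        rw [Algebra.smul_def] at h5
        exact h5
    rw [h3, charValue_algebraMap, hN] at h2
    refine lim_down Λ hS hv hσ χ (m + 1) ?_
    have h4 : (-1 : ℂ) ^ (m + 1 + 1) * (((-Real.log (Ideal.absNorm v.asIdeal : ℝ) : ℝ) : ℂ) *
        charValue χ⁻¹ ((contract hU' (ordG (insert v S) P) hker ⟨x, hxU⟩ h hπ u').regulator w)) =
        (Real.log (Ideal.absNorm v.asIdeal) : ℂ) * ((-1) ^ (m + 1) *
          charValue χ⁻¹ ((contract hU' (ordG (insert v S) P) hker ⟨x, hxU⟩ h hπ u').regulator w)) := by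
      push_cast
      ring
    rw [← h4]
    exact h2
  · have hU := US_act (G := G) (H := H) S
    choose φ' hφ' using fun i => ext_ghom hle hU hU' (ordG (G := G) (insert v S) P).f hker hker0 (φ i)
    obtain ⟨ε', hab, hε'⟩ := hL (Fin.cons (ordG (insert v S) P) φ')
    have h1 : (ordG (G := G) (insert v S) P).f (Additive.ofMul ε') = 0 := by
      apply toQ_injective
      rw [← hε', map_zero, value_eq, ev_eq_zero (i := 0) (j := Fin.last (m + 1)), mul_zero]
      · exact (Fin.last_pos).ne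
      · have e1 : (Fin.snoc (Fin.cons (ordG (G := G) (insert v S) P) φ' : Fin (m + 1) → GHom G (US H (insert v S)))
            (ordG (insert v S) P) : Fin (m + 1 + 1) → GHom G (US H (insert v S))) 0 = ordG (insert v S) P := by
          have : (0 : Fin (m + 1 + 1)) = Fin.castSucc 0 := rfl
          rw [this, Fin.snoc_castSucc, Fin.cons_zero]
        have e2 : (Fin.snoc (Fin.cons (ordG (G := G) (insert v S) P) φ' : Fin (m + 1) → GHom G (US H (insert v S)))
            (ordG (insert v S) P) : Fin (m + 1 + 1) → GHom G (US H (insert v S))) (Fin.last (m + 1)) =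
            ordG (insert v S) P := Fin.snoc_last _ _
        simp only [e1, e2]
    refine ⟨⟨(ε' : Hˣ), hker ε' h1⟩, hab, fun ψ => ?_⟩
    obtain ⟨ψ', hψ'⟩ := ext_ghom hle hU hU' (ordG (G := G) (insert v S) P).f hker hker0 ψ
    have h2 := hε' ψ'
    have h3 : (contract hU' (ordG (insert v S) P) hker ⟨x, hxU⟩ h hπ u').value (Fin.snoc φ ψ) =
        u'.value (Fin.snoc (Fin.cons (ordG (G := G) (insert v S) P) φ' : Fin (m + 1) → GHom G (US H (insert v S))) ψ') := by
      have h4 := ev_contract hU' (ordG (insert v S) P) hker ⟨x, hxU⟩ h hh hπ hle u' (RingHom.id (MonoidAlgebra ℚ G))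
        (fun a => (toQ (G := G) : MonoidAlgebra ℤ G →+ MonoidAlgebra ℚ G).comp
          ((Fin.snoc φ' ψ' : Fin (m + 1) → GHom G (US H (insert v S))) a).f) fun a => equi_toQ _
      rw [value_eq, value_eq]
      have h5 : (fun a => ((toQ (G := G) : MonoidAlgebra ℤ G →+ MonoidAlgebra ℚ G).comp
          ((Fin.snoc φ' ψ' : Fin (m + 1) → GHom G (US H (insert v S))) a).f).comp
          (MonoidHom.toAdditive (Subgroup.inclusion hle))) =
          fun a => (toQ (G := G) : MonoidAlgebra ℤ G →+ MonoidAlgebra ℚ G).comp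
            ((Fin.snoc φ ψ : Fin (m + 1) → GHom G (US H S)) a).f := by
        funext a
        refine AddMonoidHom.ext fun y => ?_
        change toQ (((Fin.snoc φ' ψ' : Fin (m + 1) → GHom G (US H (insert v S))) a).f
          (Additive.ofMul (Subgroup.inclusion hle (Additive.toMul y)))) =
          toQ (((Fin.snoc φ ψ : Fin (m + 1) → GHom G (US H S)) a).f (Additive.ofMul (Additive.toMul y)))
        refine Fin.lastCases ?_ (fun a => ?_) a
        · rw [Fin.snoc_last, Fin.snoc_last, hψ']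
        · rw [Fin.snoc_castSucc, Fin.snoc_castSucc, hφ']
      rw [h5] at h4
      rw [h4]
      congr 1
      funext a
      rw [← Fin.cons_snoc_eq_snoc_cons]
      refine Fin.cases ?_ (fun a => ?_) a
      · rfl
      · rfl
    rw [h3, h2]
    congr 1
    have h6 := hψ' ⟨(ε' : Hˣ), hker ε' h1⟩
    rw [← h6]
    rfl

/-- **From `S` to `S ∪ {v}`**, `v` split completely and the prime ideal `P` over `v` principal outside `S`. -/
theorem popescu_upN (Λ : LData F H G) (hS : Unram H S) (hv : v ∉ S) (hP : Above {v} P)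
    (hs : ∀ γ : G, Fixes (Sum.inr P : Place H) γ → γ = 1) (x : Hˣ) (hx1 : od P (Additive.ofMul x) = 1)
    (hx2 : ∀ w' : HeightOneSpectrum (𝓞 H), w' ≠ P → ¬ Above (S : Set (HeightOneSpectrum (𝓞 F))) w' →
      od w' (Additive.ofMul x) = 0)
    (h : PopescuN N Λ S w) : PopescuN N Λ (insert v S) (Fin.cons (Sum.inr P) w : Fin (m + 1 + 1) → Place H) := by
  classical
  obtain ⟨u, hE, hL⟩ := h
  have hσ := sigma_one Λ hS hv hP hs
  have hN : Ideal.absNorm P.asIdeal = Ideal.absNorm v.asIdeal := by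
    have h1 := Λ.frob v (hS v hv)
    rw [hσ] at h1
    exact absNorm_of_frob_one h1 hP
  have hxU : x ∈ US H (insert v S) := mem_insert_of hP x hx2
  have hle : US H S ≤ US H (insert v S) := US_mono (Finset.subset_insert v S)
  have hπ : (ordG (G := G) (insert v S) P).f (Additive.ofMul ⟨x, hxU⟩) = MonoidAlgebra.single 1 (1 : ℤ) :=
    ordG_gen hv hP hs ⟨x, hxU⟩ 1 hx1 hx2
  have hU' := US_act (G := G) (H := H) (insert v S)
  refine ⟨wedgeWith hle ⟨x, hxU⟩ u, ⟨fun χ hχ k => hE.inE χ ?_ k, fun χ hχ => ?_⟩, fun φ' => ?_⟩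
  · rw [active_congr (oth_cons hv hP) χ] at hχ
    exact hχ
  · rw [active_congr (oth_cons hv hP) χ] at hχ
    have h2 := lim_up Λ hS hv hσ χ (m + 1) (hE.stark χ hχ)
    have h3 : (wedgeWith hle ⟨x, hxU⟩ u).regulator (Fin.cons (Sum.inr P) w : Fin (m + 1 + 1) → Place H) =
        algebraMap ℝ (MonoidAlgebra ℝ G) (-Real.log (Ideal.absNorm P.asIdeal : ℝ)) * u.regulator w := by
      rw [regulator_eq_ev, ev_wedgeWith, Fin.sum_univ_succ]
      have h4 : ∑ i : Fin (m + 1), (-1) ^ ((i.succ : Fin (m + 1 + 1)) : ℕ) *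
          regHom G ((Fin.cons (Sum.inr P) w : Fin (m + 1 + 1) → Place H) i.succ) (US H (insert v S))
            (Additive.ofMul ⟨x, hxU⟩) * (ev (toR (G := G)) u fun b =>
          (regHom G ((Fin.cons (Sum.inr P) w : Fin (m + 1 + 1) → Place H) (i.succ.succAbove b)) (US H (insert v S))).comp
            (MonoidHom.toAdditive (Subgroup.inclusion hle))) = 0 := by
        refine Finset.sum_eq_zero fun i _ => ?_
        rw [ev_zero_row _ _ _ (0 : Fin (m + 1)), mul_zero]
        intro y
        have h5 : (i.succ.succAbove (0 : Fin (m + 1)) : Fin (m + 1 + 1)) = 0 := Fin.succ_succAbove_zero i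
        rw [h5]
        change reg G (Sum.inr P) ((Additive.toMul y : US H S) : Hˣ) = 0
        have h6 := reg_ordG (G := G) (insert v S) P (Subgroup.inclusion hle (Additive.toMul y))
        rw [(ordG_zero_iff hv hP _).2 (Additive.toMul y : US H S).2, map_zero, smul_zero] at h6
        exact h6
      refine (congrArg₂ (· + ·) ?_ h4).trans (add_zero _)
      have h5 : regHom G ((Fin.cons (Sum.inr P) w : Fin (m + 1 + 1) → Place H) 0) (US H (insert v S))
          (Additive.ofMul ⟨x, hxU⟩) = algebraMap ℝ (MonoidAlgebra ℝ G) (-Real.log (Ideal.absNorm P.asIdeal : ℝ)) := by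
        have h6 := reg_ordG (G := G) (insert v S) P ⟨x, hxU⟩
        rw [hπ] at h6
        have h7 : ((toR (G := G)).comp toQ) (MonoidAlgebra.single 1 (1 : ℤ)) = 1 := by
          have : (MonoidAlgebra.single 1 (1 : ℤ) : MonoidAlgebra ℤ G) = 1 := rfl
          rw [this, map_one]
        rw [h7, Algebra.smul_def, mul_one] at h6
        exact h6
      rw [h5]
      have h6 : (-1 : MonoidAlgebra ℝ G) ^ ((0 : Fin (m + 1 + 1)) : ℕ) = 1 := pow_zero _
      rw [h6, one_mul]
      congr 1
    rw [h3, charValue_algebraMap, hN]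
    have h8 : (Real.log (Ideal.absNorm v.asIdeal) : ℂ) * ((-1) ^ (m + 1) * charValue χ⁻¹ (u.regulator w)) =
        (-1) ^ (m + 1 + 1) * (((-Real.log (Ideal.absNorm v.asIdeal : ℝ) : ℝ) : ℂ) * charValue χ⁻¹ (u.regulator w)) := by
      push_cast
      ring
    rw [← h8]
    exact h2
  · have key : ∀ a : Fin (m + 1), ∃ ε : US H S, IsAb F (ε : Hˣ) ∧ ∀ ψ : GHom G (US H S),
        ((N * Units.torsionOrder H : ℕ) : MonoidAlgebra ℚ G) *
          u.value (Fin.snoc (fun b : Fin m => res hle (φ' (a.succAbove b))) ψ) = toQ (ψ.f (Additive.ofMul ε)) :=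
      fun a => hL _
    choose ε hab hε using key
    obtain ⟨n, hn⟩ := exists_isExp H G
    let z : Fin (m + 1) → MonoidAlgebra ℤ G := fun a => (-1) ^ (a : ℕ) * (φ' a).f (Additive.ofMul ⟨x, hxU⟩)
    let y : MonoidAlgebra ℤ G := (-1) ^ (m + 1) *
      (φ' (Fin.last m)).f (Additive.ofMul (Subgroup.inclusion hle (ε (Fin.last m))))
    let e1 : Fin (m + 1) → US H (insert v S) := fun a =>
      ⟨gp (z a) ((Subgroup.inclusion hle (ε a) : US H (insert v S)) : Hˣ), gp_mem hU' _ (Subgroup.inclusion hle (ε a)).2⟩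
    let e2 : US H (insert v S) := ⟨gp y x, gp_mem hU' _ hxU⟩
    refine ⟨(∏ a, e1 a) * e2, ?_, fun ψ' => ?_⟩
    · rw [ab_iff hn, Subgroup.coe_mul, Subgroup.val_finsetProd]
      refine Kum.mul (Kum.prod _ _ fun a _ => ?_) ?_
      · exact ((ab_iff hn _).1 (hab a)).gpow (z a)
      · have h1 : Kum n (gp ((φ' (Fin.last m)).f (Additive.ofMul (Subgroup.inclusion hle (ε (Fin.last m))))) x) :=
          Kum.pow_hom hU' (fun x hx => US_sat _ _ (Units.torsionOrder_pos H) x hx) _
            ((ab_iff hn _).1 (hab (Fin.last m))) (φ' (Fin.last m)) x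
        change Kum n (gp y x)
        have h2 : y = (φ' (Fin.last m)).f (Additive.ofMul (Subgroup.inclusion hle (ε (Fin.last m)))) ∨
            y = -(φ' (Fin.last m)).f (Additive.ofMul (Subgroup.inclusion hle (ε (Fin.last m)))) := by
          rcases neg_one_pow_eq_or (MonoidAlgebra ℤ G) (m + 1) with h3 | h3
          · left
            change (-1) ^ (m + 1) * _ = _
            rw [h3, one_mul]
          · right
            change (-1) ^ (m + 1) * _ = _
            rw [h3, neg_one_mul]
        rcases h2 with h2 | h2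
        · rw [h2]
          exact h1
        · rw [h2, gp_neg]
          have := h1.zpow (-1)
          rwa [zpow_neg_one] at this
    · have hψ : Equi (US H (insert v S)) (RingHom.id _) ψ'.f := fun γ x y hxy => ψ'.equiv γ x y hxy
      have h1 : ψ'.f (Additive.ofMul ((∏ a, e1 a) * e2)) = ∑ a, z a * ψ'.f (Additive.ofMul (Subgroup.inclusion hle (ε a))) +
          y * ψ'.f (Additive.ofMul ⟨x, hxU⟩) := by
        rw [ofMul_mul, ofMul_prod, map_add, map_sum]
        congr 1
        · refine Finset.sum_congr rfl fun a _ => ?_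
          exact hψ.gp hU' (z a) _ _ rfl
        · exact hψ.gp hU' y ⟨x, hxU⟩ _ rfl
      rw [h1, value_eq, ev_wedgeWith, Fin.sum_univ_castSucc, mul_add, map_add, map_sum, Finset.mul_sum]
      congr 1
      · refine Finset.sum_congr rfl fun a _ => ?_
        have h2 := value_res hle u fun b => (Fin.snoc φ' ψ' : Fin (m + 1 + 1) → GHom G (US H (insert v S)))
          ((Fin.castSucc a).succAbove b)
        rw [h2]
        have h3 : (fun b => res hle ((Fin.snoc φ' ψ' : Fin (m + 1 + 1) → GHom G (US H (insert v S)))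
            ((Fin.castSucc a).succAbove b))) =
            (Fin.snoc (fun b : Fin m => res hle (φ' (a.succAbove b))) (res hle ψ') : Fin (m + 1) → GHom G (US H S)) := by
          funext b
          refine Fin.lastCases ?_ (fun b => ?_) b
          · have e3 : (Fin.castSucc a).succAbove (Fin.last m) = Fin.last (m + 1) := by
              rw [Fin.succAbove_of_le_castSucc _ _ (Fin.castSucc_le_castSucc_iff.2 (Fin.le_last a)), Fin.succ_last]
            rw [Fin.snoc_last, e3, Fin.snoc_last]
          · rw [Fin.snoc_castSucc, Fin.castSucc_succAbove_castSucc, Fin.snoc_castSucc]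
        rw [h3]
        have h4 := hε a (res hle ψ')
        have h5 : (Fin.snoc φ' ψ' : Fin (m + 1 + 1) → GHom G (US H (insert v S))) (Fin.castSucc a) = φ' a :=
          Fin.snoc_castSucc _ _ _
        rw [h5]
        have h6 : (res hle ψ').f (Additive.ofMul (ε a)) = ψ'.f (Additive.ofMul (Subgroup.inclusion hle (ε a))) := rfl
        rw [h6] at h4
        rw [map_mul, ← h4]
        change ((N * Units.torsionOrder H : ℕ) : MonoidAlgebra ℚ G) * ((-1) ^ (a : ℕ) * toQ ((φ' a).f (Additive.ofMul ⟨x, hxU⟩)) * _) =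
          toQ ((-1) ^ (a : ℕ) * (φ' a).f (Additive.ofMul ⟨x, hxU⟩)) * _
        rw [map_mul, map_pow, map_neg, map_one]
        ring
      · have h2 := value_res hle u fun b => (Fin.snoc φ' ψ' : Fin (m + 1 + 1) → GHom G (US H (insert v S)))
          ((Fin.last (m + 1)).succAbove b)
        rw [h2]
        have h3 : (fun b => res hle ((Fin.snoc φ' ψ' : Fin (m + 1 + 1) → GHom G (US H (insert v S)))
            ((Fin.last (m + 1)).succAbove b))) =
            (Fin.snoc (fun b : Fin m => res hle (φ' ((Fin.last m).succAbove b))) (res hle (φ' (Fin.last m))) :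
              Fin (m + 1) → GHom G (US H S)) := by
          funext b
          rw [Fin.succAbove_last, Fin.snoc_castSucc]
          refine Fin.lastCases ?_ (fun b => ?_) b
          · rw [Fin.snoc_last]
          · rw [Fin.snoc_castSucc, Fin.succAbove_last]
        rw [h3]
        have h4 := hε (Fin.last m) (res hle (φ' (Fin.last m)))
        have h5 : (Fin.snoc φ' ψ' : Fin (m + 1 + 1) → GHom G (US H (insert v S))) (Fin.last (m + 1)) = ψ' :=
          Fin.snoc_last _ _
        rw [h5]
        have h6 : (res hle (φ' (Fin.last m))).f (Additive.ofMul (ε (Fin.last m))) =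
            (φ' (Fin.last m)).f (Additive.ofMul (Subgroup.inclusion hle (ε (Fin.last m)))) := rfl
        rw [h6] at h4
        change ((N * Units.torsionOrder H : ℕ) : MonoidAlgebra ℚ G) * ((-1) ^ (m + 1) * toQ (ψ'.f (Additive.ofMul ⟨x, hxU⟩)) * _) =
          toQ ((-1) ^ (m + 1) * (φ' (Fin.last m)).f (Additive.ofMul (Subgroup.inclusion hle (ε (Fin.last m)))) * _)
        rw [map_mul, map_mul, ← h4, map_pow, map_neg, map_one]
        ring

/-- **From `S` to `S ∪ {v}`** with the same `w_i`. -/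
theorem popescu_addN (Λ : LData F H G) (hS : Unram H S) (hv : v ∉ S) (hP : Above {v} P) (hw : System G S w)
    (h : PopescuN N Λ S w) : PopescuN N Λ (insert v S) w := by
  classical
  obtain ⟨u, hE, hL⟩ := h
  have hle : US H S ≤ US H (insert v S) := US_mono (Finset.subset_insert v S)
  have hU' := US_act (G := G) (H := H) (insert v S)
  let z : MonoidAlgebra ℤ G := 1 - MonoidAlgebra.single (Λ.σ v)⁻¹ 1
  have hz : ∀ χ : G →* ℂˣ, charValue χ (toR (toQ z)) = 1 - ((χ⁻¹ (Λ.σ v) : ℂˣ) : ℂ) := by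
    intro χ
    rw [Pool.Agent.K3h62.RS.charValue_eq]
    change Pool.Agent.K3h62.RS.cvHom χ (toR (toQ (1 - MonoidAlgebra.single (Λ.σ v)⁻¹ 1))) = _
    rw [map_sub, map_sub, map_sub, map_one, map_one, map_one]
    have h1 : toR (toQ (MonoidAlgebra.single (Λ.σ v)⁻¹ (1 : ℤ))) = MonoidAlgebra.single (Λ.σ v)⁻¹ (1 : ℝ) :=
      toRQ_single _
    rw [h1, Pool.Agent.K3h62.RS.cvHom_single, MonoidHom.inv_apply, map_inv]
    push_cast
    ring
  refine ⟨up hle (scale (toQ z) u), ⟨fun χ hχ k => ?_, fun χ hχ => ?_⟩, fun φ' => ?_⟩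
  · change charValue χ (toR (toQ z * u.c k)) = 0
    by_cases h1 : Active S w χ
    · have h2 : χ (Λ.σ v) = 1 := by
        by_contra hne
        apply hχ
        rw [active_iff] at h1 ⊢
        rcases h1 with h1 | ⟨h1, -⟩
        · refine Or.inl fun p hp => ?_
          rcases p with q | w'
          · exact h1 _ ⟨trivial, hp.2⟩
          · rcases (above_insert_iff w').1 hp.1 with h3 | h3
            · exact ⟨Λ.σ v, frob_fixes (Λ.frob v (hS v hv)) h3, hne⟩
            · exact h1 _ ⟨h3, hp.2⟩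
        · rw [h1] at hne
          exact absurd rfl hne
      rw [charValue_zero_of_mul]
      rw [hz, MonoidHom.inv_apply, h2]
      simp
    · rw [mul_comm]
      exact charValue_zero_of_mul χ _ _ (hE.inE χ h1 k)
  · have h1 := lim_insert Λ hS hv χ (m + 1) (hE.stark χ (active_of_insert hv hP hw hχ))
    have h2 : (up hle (scale (toQ z) u)).regulator w = toR (toQ z) * u.regulator w := by
      rw [regulator_eq_ev, ev_up, ev_scale]
      rfl
    have h3 : (1 - ((χ (Λ.σ v) : ℂˣ) : ℂ)) * ((-1) ^ (m + 1) * charValue χ⁻¹ (u.regulator w)) =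
        (-1) ^ (m + 1) * charValue χ⁻¹ ((up hle (scale (toQ z) u)).regulator w) := by
      rw [h2, Pool.Agent.K3h62.RS.charValue_mul, hz, MonoidHom.inv_apply, MonoidHom.inv_apply, inv_inv]
      ring
    rw [← h3]
    exact h1
  · obtain ⟨ε, hab, hε⟩ := hL fun a => res hle (φ' a)
    obtain ⟨n, hn⟩ := exists_isExp H G
    refine ⟨⟨gp z ((Subgroup.inclusion hle ε : US H (insert v S)) : Hˣ), gp_mem hU' _ (Subgroup.inclusion hle ε).2⟩, ?_,
      fun ψ' => ?_⟩
    · rw [ab_iff hn]
      exact ((ab_iff hn _).1 hab).gpow z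
    · have hψ : Equi (US H (insert v S)) (RingHom.id _) ψ'.f := fun γ x y hxy => ψ'.equiv γ x y hxy
      rw [hψ.gp hU' z (Subgroup.inclusion hle ε) _ rfl, RingHom.id_apply, map_mul]
      have h1 := hε (res hle ψ')
      have h2 : (up hle (scale (toQ z) u)).value (Fin.snoc φ' ψ' : Fin (m + 1) → GHom G (US H (insert v S))) =
          toQ z * u.value (Fin.snoc (fun a => res hle (φ' a)) (res hle ψ') : Fin (m + 1) → GHom G (US H S)) := by
        rw [value_eq, ev_up, ev_scale, RingHom.id_apply, value_res]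
        congr 2
        funext b
        refine Fin.lastCases ?_ (fun b => ?_) b
        · rw [Fin.snoc_last, Fin.snoc_last]
        · rw [Fin.snoc_castSucc, Fin.snoc_castSucc]
      rw [h2]
      have h3 : (res hle ψ').f (Additive.ofMul ε) = ψ'.f (Additive.ofMul (Subgroup.inclusion hle ε)) := rfl
      rw [← h3, ← h1]
      ring

end downup

section transport

variable {S : Finset (HeightOneSpectrum (𝓞 F))} {m : ℕ} {w w' : Fin (m + 1) → Place H}

theorem popescu_transportN (Λ : LData F H G) (ho : ∀ u, Oth G S w' u ↔ Oth G S w u) (z : MonoidAlgebra ℤ G)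
    (hz : ∀ u : Wedge G (m + 1) (US H S), toR (toQ z) * u.regulator w' = u.regulator w)
    (h : PopescuN N Λ S w) : PopescuN N Λ S w' := by
  obtain ⟨u, hE, hL⟩ := h
  have hU := US_act (G := G) (H := H) S
  refine ⟨scale (toQ z) u, ⟨fun χ hχ k => ?_, fun χ hχ => ?_⟩, fun φ => ?_⟩
  · change charValue χ (toR (toQ z * u.c k)) = 0
    rw [active_congr ho] at hχ
    rw [mul_comm]
    exact charValue_zero_of_mul χ _ _ (hE.inE χ hχ k)
  · rw [active_congr ho] at hχ
    have h1 := hE.stark χ hχ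
    have h2 : (scale (toQ z) u).regulator w' = u.regulator w := by
      rw [regulator_eq_ev, ev_scale, ← hz]
      rfl
    rw [h2]
    exact h1
  · obtain ⟨ε, hab, hε⟩ := hL φ
    obtain ⟨n, hn⟩ := exists_isExp H G
    refine ⟨⟨gp z (ε : Hˣ), gp_mem hU _ ε.2⟩, ?_, fun ψ => ?_⟩
    · rw [ab_iff hn]
      exact ((ab_iff hn _).1 hab).gpow z
    · have hψ : Equi (US H S) (RingHom.id _) ψ.f := fun γ x y hxy => ψ.equiv γ x y hxy
      rw [hψ.gp hU z ε _ rfl, RingHom.id_apply, map_mul, ← hε ψ, value_eq, ev_scale, ← value_eq, RingHom.id_apply]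
      ring

/-- the conjecture does not depend on the order of the `v_i` and the choice of the `w_i` -/
theorem popescu_changeN (Λ : LData F H G) (τ : Equiv.Perm (Fin (m + 1))) (hc : ∀ i, Conj G (w' i) (w (τ i)))
    (h : PopescuN N Λ S w) : PopescuN N Λ S w' := by
  choose γ hγ using hc
  have hs : ((Equiv.Perm.sign τ : ℤ) : MonoidAlgebra ℤ G) * ((Equiv.Perm.sign τ : ℤ) : MonoidAlgebra ℤ G) = 1 := by
    rw [← Int.cast_mul, ← Units.val_mul, Int.units_mul_self, Units.val_one, Int.cast_one]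
  refine popescu_transportN Λ (fun u => ?_) ((Equiv.Perm.sign τ : ℤ) * ∏ i, MonoidAlgebra.single (γ i)⁻¹ (1 : ℤ))
    (fun u => ?_) h
  · refine and_congr_right fun _ => ?_
    constructor
    · intro h1 i hi
      apply h1 (τ.symm i)
      have h2 := conj_symm (⟨γ (τ.symm i), hγ (τ.symm i)⟩ : Conj G (w' (τ.symm i)) (w (τ (τ.symm i))))
      rw [Equiv.apply_symm_apply] at h2
      exact conj_trans hi h2
    · intro h1 i hi
      exact h1 (τ i) (conj_trans hi ⟨γ i, hγ i⟩)
  · have h1 := regulator_change τ γ hγ u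
    have h2 : ((toR (G := G)).comp toQ) ((Equiv.Perm.sign τ : ℤ) * ∏ i, MonoidAlgebra.single (γ i)⁻¹ (1 : ℤ)) =
        ((Equiv.Perm.sign τ : ℤ) : MonoidAlgebra ℝ G) * ∏ i, MonoidAlgebra.single (γ i)⁻¹ (1 : ℝ) := by
      rw [map_mul, map_intCast, map_prod]
      simp only [toRQ_single]
    have h3 : (∏ i, MonoidAlgebra.single (γ i)⁻¹ (1 : ℝ)) * ∏ i, MonoidAlgebra.single (γ i) (1 : ℝ) = 1 := by
      rw [← Finset.prod_mul_distrib]
      refine Finset.prod_eq_one fun i _ => ?_
      rw [MonoidAlgebra.single_mul_single, inv_mul_cancel, one_mul]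
      rfl
    have h4 : ((Equiv.Perm.sign τ : ℤ) : MonoidAlgebra ℝ G) * ((Equiv.Perm.sign τ : ℤ) : MonoidAlgebra ℝ G) = 1 := by
      rw [← Int.cast_mul, ← Units.val_mul, Int.units_mul_self, Units.val_one, Int.cast_one]
    change ((toR (G := G)).comp toQ) _ * _ = _
    rw [h2, h1]
    calc _ = (((Equiv.Perm.sign τ : ℤ) : MonoidAlgebra ℝ G) * ((Equiv.Perm.sign τ : ℤ) : MonoidAlgebra ℝ G)) *
          (((∏ i, MonoidAlgebra.single (γ i)⁻¹ (1 : ℝ)) * ∏ i, MonoidAlgebra.single (γ i) (1 : ℝ)) * u.regulator w) := by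
          ring
      _ = _ := by rw [h3, h4, one_mul, one_mul]

/-- the case without characters -/
theorem popescu_trivialN (Λ : LData F H G) (h : ∀ χ : G →* ℂˣ, ¬ Active S w χ) : PopescuN N Λ S w := by
  obtain ⟨n, hn⟩ := exists_isExp H G
  refine ⟨⟨0, Fin.elim0, Fin.elim0⟩, ⟨fun χ _ k => k.elim0, fun χ hχ => absurd hχ (h χ)⟩, fun φ => ⟨1, ?_, fun ψ => ?_⟩⟩
  · rw [ab_iff hn]
    exact Kum.one n
  · have h1 : (⟨0, Fin.elim0, Fin.elim0⟩ : Wedge G (m + 1) (US H S)).value (Fin.snoc φ ψ) = 0 := by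
      unfold Wedge.value
      exact Finset.sum_of_isEmpty _
    rw [h1, mul_zero, ofMul_one, map_zero, map_zero]

end transport

theorem popescu_fullN (Λ : LData F H G) {S : Finset (HeightOneSpectrum (𝓞 F))} {m m' : ℕ} {w : Fin (m + 1) → Place H}
    {w' : Fin (m' + 1) → Place H} (hw : System G S w) (fw : Full G S w) (hw' : System G S w') (fw' : Full G S w')
    (h : PopescuN N Λ S w) : PopescuN N Λ S w' := by
  choose f hf using fun i => fw (w' i) (hw'.inS i) (hw'.splits i)
  choose g hg using fun i => fw' (w i) (hw.inS i) (hw.splits i)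
  have hfi : Function.Injective f := by
    intro i j hij
    apply hw'.distinct
    have h1 := hf j
    rw [← hij] at h1
    exact conj_trans (hf i) (conj_symm h1)
  have hgi : Function.Injective g := by
    intro i j hij
    apply hw.distinct
    have h1 := hg j
    rw [← hij] at h1
    exact conj_trans (hg i) (conj_symm h1)
  have h1 := Fintype.card_le_of_injective f hfi
  have h2 := Fintype.card_le_of_injective g hgi
  rw [Fintype.card_fin, Fintype.card_fin] at h1 h2
  have h3 : m' = m := by omega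
  subst h3
  exact popescu_changeN Λ (Equiv.ofBijective f (Finite.injective_iff_bijective.1 hfi)) hf h

/-- the first half: from `S₁` to larger sets -/
theorem up_allN (Λ : LData F H G) [DecidableEq (HeightOneSpectrum (𝓞 F))] {S₁ : Finset (HeightOneSpectrum (𝓞 F))} (hS : Unram H S₁)
    (hpr : ∀ P : HeightOneSpectrum (𝓞 H), ¬ Above (S₁ : Set (HeightOneSpectrum (𝓞 F))) P → ∃ x : Hˣ,
      od P (Additive.ofMul x) = 1 ∧ ∀ w' : HeightOneSpectrum (𝓞 H), w' ≠ P →
        ¬ Above (S₁ : Set (HeightOneSpectrum (𝓞 F))) w' → od w' (Additive.ofMul x) = 0)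
    {m₁ : ℕ} {w₁ : Fin (m₁ + 1) → Place H} (hw₁ : System G S₁ w₁) (fw₁ : Full G S₁ w₁) (h : PopescuN N Λ S₁ w₁)
    (T : Finset (HeightOneSpectrum (𝓞 F))) : ∃ (m : ℕ) (w : Fin (m + 1) → Place H), System G (S₁ ∪ T) w ∧
      Full G (S₁ ∪ T) w ∧ PopescuN N Λ (S₁ ∪ T) w := by
  induction T using Finset.induction_on with
  | empty =>
    rw [Finset.union_empty]
    exact ⟨m₁, w₁, hw₁, fw₁, h⟩
  | insert v T hvT ih =>
    obtain ⟨m, w, hw, fw, hp⟩ := ih
    by_cases hv : v ∈ S₁ ∪ T
    · rw [Finset.union_insert, Finset.insert_eq_self.2 hv]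
      exact ⟨m, w, hw, fw, hp⟩
    · rw [Finset.union_insert]
      have hS' : Unram H (S₁ ∪ T) := fun v' hv' => hS v' fun h => hv' (Finset.mem_union_left _ h)
      obtain ⟨P, hP⟩ := (Pool.Agent.K3h25.RS.t_OVER F H v).1
      by_cases hs : ∀ γ : G, Fixes (Sum.inr P : Place H) γ → γ = 1
      · have hv₁ : v ∉ S₁ := fun h => hv (Finset.mem_union_left _ h)
        obtain ⟨x, hx1, hx2⟩ := hpr P (not_above_of hv₁ hP)
        refine ⟨m + 1, Fin.cons (Sum.inr P) w, system_cons hv hP hs hw, full_cons hP fw,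
          popescu_upN Λ hS' hv hP hs x hx1 (fun w' h1 h2 => hx2 w' h1 fun h3 => h2 ?_) hp⟩
        obtain ⟨v', hv', h4⟩ := h3
        exact ⟨v', by rw [Finset.coe_union]; exact Or.inl hv', h4⟩
      · exact ⟨m, w, system_insert hw, full_insert hP hs fw, popescu_addN Λ hS' hv hP hw hp⟩

/-- the second half: places which split completely are removed -/
theorem down_allN (Λ : LData F H G) [DecidableEq (HeightOneSpectrum (𝓞 F))] {S : Finset (HeightOneSpectrum (𝓞 F))} (hS : Unram H S)
    (A : Finset (HeightOneSpectrum (𝓞 F)))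
    (hA : ∀ v ∈ A, v ∉ S → ∀ P : HeightOneSpectrum (𝓞 H), Above {v} P → ∀ γ : G, Fixes (Sum.inr P : Place H) γ → γ = 1)
    (h : ∀ (m : ℕ) (w : Fin (m + 1) → Place H), System G (S ∪ A) w → Full G (S ∪ A) w → PopescuN N Λ (S ∪ A) w) :
    ∀ (m : ℕ) (w : Fin (m + 1) → Place H), System G S w → Full G S w → PopescuN N Λ S w := by
  induction A using Finset.induction_on with
  | empty => rwa [Finset.union_empty] at h
  | insert v A hvA ih =>
    refine ih (fun v' hv' => hA v' (Finset.mem_insert_of_mem hv')) fun m w hw fw => ?_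
    by_cases hv : v ∈ S ∪ A
    · rw [Finset.union_insert, Finset.insert_eq_self.2 hv] at h
      exact h m w hw fw
    · rw [Finset.union_insert] at h
      have hS' : Unram H (S ∪ A) := fun v' hv' => hS v' fun h => hv' (Finset.mem_union_left _ h)
      obtain ⟨P, hP⟩ := (Pool.Agent.K3h25.RS.t_OVER F H v).1
      have hs := hA v (Finset.mem_insert_self _ _) (fun h => hv (Finset.mem_union_left _ h)) P hP
      exact popescu_downN Λ hS' hv hP hs (h (m + 1) _ (system_cons hv hP hs hw) (full_cons hP fw))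

/-- **All sets `S` from `S₁`.** -/
theorem popescu_allN (Λ : LData F H G) {S₁ : Finset (HeightOneSpectrum (𝓞 F))} (hS₁ : Unram H S₁)
    (hpr : ∀ P : HeightOneSpectrum (𝓞 H), ¬ Above (S₁ : Set (HeightOneSpectrum (𝓞 F))) P → ∃ x : Hˣ,
      od P (Additive.ofMul x) = 1 ∧ ∀ w' : HeightOneSpectrum (𝓞 H), w' ≠ P →
        ¬ Above (S₁ : Set (HeightOneSpectrum (𝓞 F))) w' → od w' (Additive.ofMul x) = 0)
    {m₁ : ℕ} {w₁ : Fin (m₁ + 1) → Place H} (hw₁ : System G S₁ w₁) (fw₁ : Full G S₁ w₁) (h : PopescuN N Λ S₁ w₁)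
    {S : Finset (HeightOneSpectrum (𝓞 F))} (hS : Unram H S)
    (hsp : ∀ v ∈ S₁, v ∉ S → ∀ P : HeightOneSpectrum (𝓞 H), Above {v} P → ∀ γ : G, Fixes (Sum.inr P : Place H) γ → γ = 1)
    (hns : ∃ u : Place H, InS (S : Set (HeightOneSpectrum (𝓞 F))) u ∧ ∃ γ : G, Fixes u γ ∧ γ ≠ 1)
    {m : ℕ} {w : Fin (m + 1) → Place H} (hw : System G S w) : PopescuN N Λ S w := by
  classical
  by_cases fw : Full G S w
  · refine down_allN Λ hS S₁ hsp (fun m' w' hw' fw' => ?_) m w hw fw
    obtain ⟨m₂, w₂, hw₂, fw₂, h₂⟩ := up_allN Λ hS₁ hpr hw₁ fw₁ h S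
    rw [Finset.union_comm] at hw₂ fw₂ h₂
    exact popescu_fullN Λ hw₂ fw₂ hw' fw' h₂
  · have h1 : ∃ u : Place H, InS (S : Set (HeightOneSpectrum (𝓞 F))) u ∧ (∀ γ : G, Fixes u γ → γ = 1) ∧
        ∀ i, ¬ Conj G u (w i) := by
      unfold Full at fw
      push Not at fw
      exact fw
    obtain ⟨u, hu1, hu2, hu3⟩ := h1
    obtain ⟨u', hu'1, γ, hγ1, hγ2⟩ := hns
    have ho : Oth G S w u := ⟨hu1, hu3⟩
    have ho' : Oth G S w u' := ⟨hu'1, fun i hi => hγ2 (hw.splits i γ ((fixes_conj hi γ).1 hγ1))⟩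
    refine popescu_trivialN Λ fun χ hχ => ?_
    rw [active_iff] at hχ
    rcases hχ with hχ | ⟨-, hχ⟩
    · obtain ⟨δ, hδ1, hδ2⟩ := hχ u ho
      rw [hu2 δ hδ1, map_one] at hδ2
      exact hδ2 rfl
    · exact hγ2 (hu2 γ ((fixes_conj (hχ u u' ho ho') γ).2 hγ1))

end Pool.Agent.T9h51.PN
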