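import Pool.Agent.T9h51.PN.Moves

/-!
# Rational Stark elements and denominators
-/

set_option autoImplicit false
set_option linter.unusedSectionVars false

open NumberField IsDedekindDomain Filter Topology

noncomputable section

namespace Pool.Agent.T9h51.PN

open Pool.Agent.K3h30.RS Pool.Agent.T9h51.PS

variable {F H G : Type} [Field F] [NumberField F] [Field H] [NumberField H] [Algebra F H]
  [CommGroup G] [Finite G] [MulSemiringAction G H] [IsGaloisGroup G F H]

section up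

variable [DecidableEq (HeightOneSpectrum (𝓞 F))] {v : HeightOneSpectrum (𝓞 F)} {S : Finset (HeightOneSpectrum (𝓞 F))}
  {P : HeightOneSpectrum (𝓞 H)} {r : ℕ} {w : Fin r → Place H}

/-- rational Stark elements for `S ∪ {v}`, `v` split completely -/
theorem stark_up (Λ : LData F H G) (hS : Unram H S) (hv : v ∉ S) (hP : Above {v} P)
    (hs : ∀ γ : G, Fixes (Sum.inr P : Place H) γ → γ = 1) (hU : StarkQ Λ S w) :
    StarkQ Λ (insert v S) (Fin.cons (Sum.inr P) w : Fin (r + 1) → Place H) := by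
  classical
  obtain ⟨u, hE⟩ := hU
  have hσ := sigma_one Λ hS hv hP hs
  have hN : Ideal.absNorm P.asIdeal = Ideal.absNorm v.asIdeal := by
    have h1 := Λ.frob v (hS v hv)
    rw [hσ] at h1
    exact absNorm_of_frob_one h1 hP
  obtain ⟨h, x, hh, hx1, hx2⟩ := exists_gen P
  have hxU : x ∈ US H (insert v S) := mem_insert_of hP x fun w' h1 _ => hx2 w' h1
  have hle : US H S ≤ US H (insert v S) := US_mono (Finset.subset_insert v S)
  have hπ : (ordG (G := G) (insert v S) P).f (Additive.ofMul ⟨x, hxU⟩) = MonoidAlgebra.single 1 (h : ℤ) :=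
    ordG_gen hv hP hs ⟨x, hxU⟩ h hx1 fun w' h1 _ => hx2 w' h1
  refine ⟨scale (algebraMap ℚ (MonoidAlgebra ℚ G) (h : ℚ)⁻¹) (wedgeWith hle ⟨x, hxU⟩ u),
    ⟨fun χ hχ k => ?_, fun χ hχ => ?_⟩⟩
  · rw [active_congr (oth_cons hv hP) χ] at hχ
    change charValue χ (toR (_ * u.c k)) = 0
    rw [mul_comm]
    exact charValue_zero_of_mul χ _ _ (hE.inE χ hχ k)
  · rw [active_congr (oth_cons hv hP) χ] at hχ
    have h2 := lim_up Λ hS hv hσ χ r (hE.stark χ hχ)
    have h3 : (wedgeWith hle ⟨x, hxU⟩ u).regulator (Fin.cons (Sum.inr P) w : Fin (r + 1) → Place H) =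
        algebraMap ℝ (MonoidAlgebra ℝ G) (-Real.log (Ideal.absNorm P.asIdeal : ℝ) * h) * u.regulator w := by
      rw [regulator_eq_ev, ev_wedgeWith, Fin.sum_univ_succ]
      have h4 : ∑ i : Fin r, (-1) ^ ((i.succ : Fin (r + 1)) : ℕ) *
          regHom G ((Fin.cons (Sum.inr P) w : Fin (r + 1) → Place H) i.succ) (US H (insert v S))
            (Additive.ofMul ⟨x, hxU⟩) * (ev (toR (G := G)) u fun b =>
          (regHom G ((Fin.cons (Sum.inr P) w : Fin (r + 1) → Place H) (i.succ.succAbove b)) (US H (insert v S))).comp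
            (MonoidHom.toAdditive (Subgroup.inclusion hle))) = 0 := by
        refine Finset.sum_eq_zero fun i _ => ?_
        obtain ⟨m, rfl⟩ : ∃ m, r = m + 1 := ⟨r - 1, by have := i.2; omega⟩
        rw [ev_zero_row _ _ _ (0 : Fin (m + 1)), mul_zero]
        intro y
        have h5 : (i.succ.succAbove (0 : Fin (m + 1)) : Fin (m + 1 + 1)) = 0 := Fin.succ_succAbove_zero i
        rw [h5]
        change reg G (Sum.inr P) ((Additive.toMul y : US H S) : Hˣ) = 0
        have h6 := reg_ordG (G := G) (insert v S) P (Subgroup.inclusion hle (Additive.toMul y))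
        rw [(ordG_zero_iff hv hP _).2 (Additive.toMul y : US H S).2, map_zero, smul_zero] at h6
        exact h6
      refine (congrArg₂ (· + ·) ?_ h4).trans (add_zero _)
      have h5 : regHom G ((Fin.cons (Sum.inr P) w : Fin (r + 1) → Place H) 0) (US H (insert v S))
          (Additive.ofMul ⟨x, hxU⟩) =
          algebraMap ℝ (MonoidAlgebra ℝ G) (-Real.log (Ideal.absNorm P.asIdeal : ℝ) * h) := by
        have h6 := reg_ordG (G := G) (insert v S) P ⟨x, hxU⟩
        rw [hπ] at h6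
        have h7 : ((toR (G := G)).comp toQ) (MonoidAlgebra.single 1 (h : ℤ)) =
            algebraMap ℝ (MonoidAlgebra ℝ G) (h : ℝ) := by
          have : (MonoidAlgebra.single 1 (h : ℤ) : MonoidAlgebra ℤ G) = ((h : ℤ) : MonoidAlgebra ℤ G) := by
            rw [MonoidAlgebra.intCast_def]
            simp
          rw [this, map_intCast]
          simp
        rw [h7, Algebra.smul_def, ← map_mul] at h6
        exact h6
      rw [h5]
      have h6 : (-1 : MonoidAlgebra ℝ G) ^ ((0 : Fin (r + 1)) : ℕ) = 1 := pow_zero _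
      rw [h6, one_mul]
      congr 1
    have h9 : (scale (algebraMap ℚ (MonoidAlgebra ℚ G) (h : ℚ)⁻¹) (wedgeWith hle ⟨x, hxU⟩ u)).regulator
        (Fin.cons (Sum.inr P) w : Fin (r + 1) → Place H) =
        algebraMap ℝ (MonoidAlgebra ℝ G) (-Real.log (Ideal.absNorm P.asIdeal : ℝ)) * u.regulator w := by
      rw [regulator_eq_ev, ev_scale, ← regulator_eq_ev, h3]
      have h10 : (toR (G := G)) (algebraMap ℚ (MonoidAlgebra ℚ G) (h : ℚ)⁻¹) =
          algebraMap ℝ (MonoidAlgebra ℝ G) (h : ℝ)⁻¹ := by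
        change (toR (G := G)) (MonoidAlgebra.single 1 ((h : ℚ)⁻¹)) = MonoidAlgebra.single 1 ((h : ℝ)⁻¹)
        rw [Pool.Agent.K3h62.RS.toR_single]
        push_cast
        rfl
      rw [h10, ← mul_assoc, ← map_mul]
      congr 2
      have hh' : (h : ℝ) ≠ 0 := by exact_mod_cast hh.ne'
      field_simp
    rw [h9, charValue_algebraMap, hN]
    have h8 : (Real.log (Ideal.absNorm v.asIdeal) : ℂ) * ((-1) ^ r * charValue χ⁻¹ (u.regulator w)) =
        (-1) ^ (r + 1) * (((-Real.log (Ideal.absNorm v.asIdeal : ℝ) : ℝ) : ℂ) * charValue χ⁻¹ (u.regulator w)) := by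
      push_cast
      ring
    rw [← h8]
    exact h2

end up

/-- rational Stark elements for larger sets -/
theorem stark_all (Λ : LData F H G) [DecidableEq (HeightOneSpectrum (𝓞 F))] {S₀ : Finset (HeightOneSpectrum (𝓞 F))}
    (hS : Unram H S₀) {r₀ : ℕ} {w₀ : Fin r₀ → Place H} (hw₀ : System G S₀ w₀) (fw₀ : Full G S₀ w₀)
    (h : StarkQ Λ S₀ w₀) (T : Finset (HeightOneSpectrum (𝓞 F)))
    (hT : ∀ v ∈ T, ∀ P : HeightOneSpectrum (𝓞 H), Above {v} P → ∀ γ : G, Fixes (Sum.inr P : Place H) γ → γ = 1) :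
    ∃ (r : ℕ) (w : Fin r → Place H), System G (S₀ ∪ T) w ∧ Full G (S₀ ∪ T) w ∧ StarkQ Λ (S₀ ∪ T) w := by
  induction T using Finset.induction_on with
  | empty =>
    rw [Finset.union_empty]
    exact ⟨r₀, w₀, hw₀, fw₀, h⟩
  | insert v T hvT ih =>
    obtain ⟨r, w, hw, fw, hp⟩ := ih fun v' hv' => hT v' (Finset.mem_insert_of_mem hv')
    by_cases hv : v ∈ S₀ ∪ T
    · rw [Finset.union_insert, Finset.insert_eq_self.2 hv]
      exact ⟨r, w, hw, fw, hp⟩
    · rw [Finset.union_insert]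
      have hS' : Unram H (S₀ ∪ T) := fun v' hv' => hS v' fun h => hv' (Finset.mem_union_left _ h)
      obtain ⟨P, hP⟩ := (Pool.Agent.K3h25.RS.t_OVER F H v).1
      have hs := hT v (Finset.mem_insert_self _ _) P hP
      exact ⟨r + 1, Fin.cons (Sum.inr P) w, system_cons hv hP hs hw, full_cons hP fw, stark_up Λ hS' hv hP hs hp⟩

section den

omit [IsGaloisGroup G F H] in
theorem Kum.pow_w {n : G → ℤ} (x : Hˣ) : Kum n (x ^ (wH H)) := by
  refine ⟨fun s => act s x * (x ^ n s)⁻¹, fun s => ?_, fun s t => ?_⟩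
  · have h1 : (x ^ (wH H)) ^ n s = (x ^ n s) ^ (wH H) := by
      rw [← zpow_natCast, ← zpow_mul, mul_comm, zpow_mul, zpow_natCast]
    change _ = _ * (act s x * (x ^ n s)⁻¹) ^ (wH H)
    rw [act_pow, h1, ← mul_pow, mul_comm (act s x), mul_inv_cancel_left]
  · have h1 : ∀ s t : G, act s (act t x * (x ^ n t)⁻¹) * (act s x * (x ^ n s)⁻¹) ^ n t =
        act (s * t) x * (x ^ (n s * n t))⁻¹ := by
      intro s t
      have h2 : act s ((x ^ n t)⁻¹) = (act s x ^ n t)⁻¹ := by
        rw [← act_zpow]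
        exact map_inv (Units.map (MulSemiringAction.toRingHom G H s : H →* H)) _
      rw [act_map_mul, h2, ← act_mul, mul_zpow, inv_zpow, ← zpow_mul]
      group
    rw [h1 s t, h1 t s, mul_comm s t, mul_comm (n s)]

/-- denominators in the group ring -/
theorem exists_den (c : MonoidAlgebra ℚ G) : ∃ (n : ℕ) (z : MonoidAlgebra ℤ G), 0 < n ∧ toQ z = (n : MonoidAlgebra ℚ G) * c := by
  induction c using MonoidAlgebra.induction_linear with
  | zero => exact ⟨1, 0, one_pos, by rw [map_zero, mul_zero]⟩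
  | add a b ha hb =>
    obtain ⟨n, z, hn, hz⟩ := ha
    obtain ⟨n', z', hn', hz'⟩ := hb
    refine ⟨n * n', (n' : MonoidAlgebra ℤ G) * z + (n : MonoidAlgebra ℤ G) * z', Nat.mul_pos hn hn', ?_⟩
    rw [map_add, map_mul, map_mul, hz, hz', map_natCast, map_natCast]
    push_cast
    ring
  | single g q =>
    refine ⟨q.den, MonoidAlgebra.single g q.num, q.den_pos, ?_⟩
    have h1 : ((q.den : ℕ) : MonoidAlgebra ℚ G) = MonoidAlgebra.single 1 (q.den : ℚ) := by
      rw [MonoidAlgebra.natCast_def]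
    rw [h1, MonoidAlgebra.single_mul_single, one_mul]
    have h2 : toQ (MonoidAlgebra.single g q.num) = MonoidAlgebra.single g (q.num : ℚ) := by
      simp [toQ]
    rw [h2]
    congr 1
    rw [mul_comm, Rat.mul_den_eq_num]

theorem exists_den' {r : ℕ} {U : Subgroup Hˣ} (u : Wedge G r U) : ∃ (N : ℕ) (z : Fin u.n → MonoidAlgebra ℤ G), 0 < N ∧
    ∀ k, toQ (z k) = (N : MonoidAlgebra ℚ G) * u.c k := by
  classical
  choose n z hn hz using fun k => exists_den (u.c k)
  refine ⟨∏ k, n k, fun k => ((∏ j ∈ Finset.univ.erase k, n j : ℕ) : MonoidAlgebra ℤ G) * z k,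
    Finset.prod_pos fun k _ => hn k, fun k => ?_⟩
  rw [map_mul, hz, map_natCast, ← mul_assoc, ← Nat.cast_mul, Finset.prod_erase_mul _ _ (Finset.mem_univ k)]

/-- **Denominators.** Every element of `ℚ ⋀^r E_S` is in Popescu's lattice up to a factor. -/
theorem exists_N {S : Finset (HeightOneSpectrum (𝓞 F))} {m : ℕ} (u : Wedge G (m + 1) (US H S)) :
    ∃ N : ℕ, 0 < N ∧ InLatticeN N u := by
  classical
  obtain ⟨N, z, hN, hz⟩ := exists_den' u
  obtain ⟨n, hn⟩ := exists_isExp H G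
  have hU := US_act (G := G) (H := H) S
  refine ⟨N, hN, fun φ => ?_⟩
  let M : Fin u.n → Fin (m + 1) → MonoidAlgebra ℤ G := fun k j =>
    (-1) ^ (m + (j : ℕ)) * Matrix.det (Matrix.of fun (a : Fin m) (b : Fin m) =>
      (φ a).f (Additive.ofMul (u.x k (j.succAbove b))))
  let e : Fin u.n → Fin (m + 1) → US H S := fun k j =>
    ⟨gp (z k * M k j) ((u.x k j : US H S) : Hˣ), gp_mem hU _ (u.x k j).2⟩
  refine ⟨(∏ k, ∏ j, e k j) ^ (wH H), ?_, fun ψ => ?_⟩
  · rw [ab_iff hn, Subgroup.coe_pow]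
    exact Kum.pow_w _
  · have hψ : Equi (US H S) (RingHom.id _) ψ.f := fun γ x y hxy => ψ.equiv γ x y hxy
    have h1 : ψ.f (Additive.ofMul ((∏ k, ∏ j, e k j) ^ (wH H))) =
        (wH H : MonoidAlgebra ℤ G) * ∑ k, ∑ j, z k * M k j * ψ.f (Additive.ofMul (u.x k j)) := by
      rw [ofMul_pow, map_nsmul, nsmul_eq_mul, ofMul_prod, map_sum]
      congr 1
      refine Finset.sum_congr rfl fun k _ => ?_
      rw [ofMul_prod, map_sum]
      refine Finset.sum_congr rfl fun j _ => ?_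
      exact hψ.gp hU (z k * M k j) (u.x k j) _ rfl
    rw [h1, map_mul, map_natCast, map_sum]
    unfold Wedge.value
    rw [Finset.mul_sum, Finset.mul_sum]
    refine Finset.sum_congr rfl fun k _ => ?_
    have h2 : Matrix.det (Matrix.of fun a b => ((Fin.snoc φ ψ : Fin (m + 1) → GHom G (US H S)) a).f (Additive.ofMul (u.x k b))) =
        ∑ j, M k j * ψ.f (Additive.ofMul (u.x k j)) := by
      rw [Matrix.det_succ_row _ (Fin.last m)]
      refine Finset.sum_congr rfl fun j _ => ?_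
      have h3 : (Matrix.of fun a b => ((Fin.snoc φ ψ : Fin (m + 1) → GHom G (US H S)) a).f (Additive.ofMul (u.x k b))).submatrix
          (Fin.last m).succAbove j.succAbove =
          Matrix.of fun (a : Fin m) (b : Fin m) => (φ a).f (Additive.ofMul (u.x k (j.succAbove b))) := by
        ext a b
        simp only [Matrix.submatrix_apply, Matrix.of_apply, Fin.succAbove_last, Fin.snoc_castSucc]
      rw [h3]
      simp only [Matrix.of_apply, Fin.snoc_last, Fin.val_last]
      change _ = (-1) ^ (m + (j : ℕ)) * Matrix.det (Matrix.of fun (a : Fin m) (b : Fin m) =>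
        (φ a).f (Additive.ofMul (u.x k (j.succAbove b)))) * _
      ring
    rw [h2]
    have h4 : ∑ j, z k * M k j * ψ.f (Additive.ofMul (u.x k j)) = z k * ∑ j, M k j * ψ.f (Additive.ofMul (u.x k j)) := by
      rw [Finset.mul_sum]
      refine Finset.sum_congr rfl fun j _ => ?_
      ring
    rw [h4, map_mul, hz k]
    push_cast
    ring

end den

/-- split prime ideals which generate the class group modulo `S₀` -/
theorem exists_D (G : Type) [CommGroup G] [Finite G] [MulSemiringAction G H] [IsGaloisGroup G F H]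
    [DecidableEq (HeightOneSpectrum (𝓞 F))] (S₀ : Finset (HeightOneSpectrum (𝓞 F))) (hS₀ : Unram H S₀) :
    ∃ D : Finset (HeightOneSpectrum (𝓞 F)), D.Nonempty ∧
      (∀ v ∈ D, v ∉ S₀ ∧ ∀ P : HeightOneSpectrum (𝓞 H), Above {v} P → ∀ γ : G, Fixes (Sum.inr P : Place H) γ → γ = 1) ∧
      (∀ P : HeightOneSpectrum (𝓞 H), ¬ Above ((S₀ ∪ D : Finset (HeightOneSpectrum (𝓞 F))) :
          Set (HeightOneSpectrum (𝓞 F))) P → ∃ x : Hˣ,
        od P (Additive.ofMul x) = 1 ∧ ∀ w' : HeightOneSpectrum (𝓞 H), w' ≠ P →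
          ¬ Above ((S₀ ∪ D : Finset (HeightOneSpectrum (𝓞 F))) : Set (HeightOneSpectrum (𝓞 F))) w' →
          od w' (Additive.ofMul x) = 0) := by
  classical
  choose a ha1 ha2 ha3 using fun c : ClassGroup (𝓞 H) => exists_in_class (K := H)
    (fun P => Above (S₀ : Set (HeightOneSpectrum (𝓞 F))) P ∨
      ¬ (Ideal.absNorm P.asIdeal).Prime) (summable_bad S₀) c 1
  have ha0 : ∀ c, a c ≠ 0 := fun c => nonZeroDivisors.ne_zero (ha1 c).1
  have hfin : {P : HeightOneSpectrum (𝓞 H) | ∃ c, P.asIdeal ∣ a c}.Finite := by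
    have : {P : HeightOneSpectrum (𝓞 H) | ∃ c, P.asIdeal ∣ a c} =
        ⋃ c, {P : HeightOneSpectrum (𝓞 H) | P.asIdeal ∣ a c} := by
      ext P
      simp
    rw [this]
    exact Set.finite_iUnion fun c => Ideal.finite_factors (ha0 c)
  choose below hbelow using fun P : HeightOneSpectrum (𝓞 H) => exists_above (F := F) P
  set D : Finset (HeightOneSpectrum (𝓞 F)) := hfin.toFinset.image below with hD
  have hDm : ∀ (P : HeightOneSpectrum (𝓞 H)) (c), P.asIdeal ∣ a c → below P ∈ D := by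
    intro P c h
    rw [hD, Finset.mem_image]
    exact ⟨P, hfin.mem_toFinset.2 ⟨c, h⟩, rfl⟩
  have hDs : ∀ v ∈ D, v ∉ S₀ ∧ ∀ P : HeightOneSpectrum (𝓞 H), Above {v} P → ∀ γ : G,
      Fixes (Sum.inr P : Place H) γ → γ = 1 := by
    intro v hv
    rw [hD, Finset.mem_image] at hv
    obtain ⟨P, hP, rfl⟩ := hv
    rw [hfin.mem_toFinset] at hP
    obtain ⟨c, hc⟩ := hP
    have h1 : ¬ (Above (S₀ : Set (HeightOneSpectrum (𝓞 F))) P ∨
        ¬ (Ideal.absNorm P.asIdeal).Prime) := fun h => ha3 c P h hc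
    rw [not_or, not_not, above_iff (hbelow P), Finset.mem_coe] at h1
    obtain ⟨h2, h4⟩ := h1
    refine ⟨h2, fun P' hP' γ hγ => ?_⟩
    exact split_of_norm (hS₀ _ h2) (hbelow P) (norm_eq_of_prime (hbelow P) h4) γ
      ((fixes_conj (conj_above (hbelow P) hP') γ).1 hγ)
  refine ⟨D, ?_, hDs, fun P hP => ?_⟩
  · have h2 : a 1 ≠ ⊤ := by
      intro h
      have := ha2 1
      rw [h, Ideal.absNorm_top] at this
      exact lt_irrefl _ this
    obtain ⟨Q, hQm, hQ⟩ := Ideal.exists_le_maximal _ h2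
    have hQ0 : Q ≠ ⊥ := by
      intro h0
      rw [h0, le_bot_iff] at hQ
      exact ha0 1 hQ
    exact ⟨_, hDm ⟨Q, hQm.isPrime, hQ0⟩ 1 (Ideal.dvd_iff_le.2 hQ)⟩
  · have hPD : ∀ (P' : HeightOneSpectrum (𝓞 H)) (c), P'.asIdeal ∣ a c →
        Above ((S₀ ∪ D : Finset (HeightOneSpectrum (𝓞 F))) : Set (HeightOneSpectrum (𝓞 F))) P' := by
      intro P' c h
      rw [above_iff (hbelow P'), Finset.mem_coe]
      exact Finset.mem_union_right _ (hDm P' c h)
    obtain ⟨x, hx1, hx2⟩ := gen_of_class P (a (cl P)⁻¹) (ha1 _) fun h => hP (hPD P _ h)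
    exact ⟨x, hx1, fun w' h5 h6 => hx2 w' h5 fun h7 => h6 (hPD w' _ h7)⟩

/-- **Uniform denominators.** -/
theorem uniform (Λ : LData F H G) {S₀ : Finset (HeightOneSpectrum (𝓞 F))} (hS₀ : Unram H S₀) {r₀ : ℕ}
    {w₀ : Fin r₀ → Place H} (hw₀ : System G S₀ w₀) (fw₀ : Full G S₀ w₀) (h : StarkQ Λ S₀ w₀) :
    ∃ N : ℕ, 0 < N ∧ ∀ S : Finset (HeightOneSpectrum (𝓞 F)), Unram H S →
      (∀ v ∈ S₀, v ∉ S → ∀ P : HeightOneSpectrum (𝓞 H), Above {v} P → ∀ γ : G,
        Fixes (Sum.inr P : Place H) γ → γ = 1) →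
      (∃ u : Place H, InS (S : Set (HeightOneSpectrum (𝓞 F))) u ∧ ∃ γ : G, Fixes u γ ∧ γ ≠ 1) →
      ∀ (m : ℕ) (w : Fin (m + 1) → Place H), System G S w → PopescuN N Λ S w := by
  classical
  obtain ⟨D, ⟨v₀, hv₀⟩, hD, hpr⟩ := exists_D (H := H) G S₀ hS₀
  obtain ⟨r, w₁, hw₁, fw₁, hst⟩ := stark_all Λ hS₀ hw₀ fw₀ h D fun v hv => (hD v hv).2
  have hr : r ≠ 0 := by
    rintro rfl
    obtain ⟨P, hP⟩ := (Pool.Agent.K3h25.RS.t_OVER F H v₀).1
    obtain ⟨i, -⟩ := fw₁ (Sum.inr P) (by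
      change Above _ P
      rw [above_iff hP, Finset.mem_coe]
      exact Finset.mem_union_right _ hv₀) ((hD v₀ hv₀).2 P hP)
    exact i.elim0
  obtain ⟨m₁, rfl⟩ := Nat.exists_eq_succ_of_ne_zero hr
  obtain ⟨u, hu⟩ := hst
  obtain ⟨N, hN, hL⟩ := exists_N u
  have hS₁ : Unram H (S₀ ∪ D) := fun v hv => hS₀ v fun h => hv (Finset.mem_union_left _ h)
  refine ⟨N, hN, fun S hS hsp hns m w hw => popescu_allN Λ hS₁ hpr hw₁ fw₁ ⟨u, hu, hL⟩ hS (fun v hv hvS => ?_) hns hw⟩
  rcases Finset.mem_union.1 hv with hv | hv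
  · exact hsp v hv hvS
  · exact (hD v hv).2

end Pool.Agent.T9h51.PN
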